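import Pool.Agent.Y490.GO.Glue

set_option autoImplicit false

/-! A maximal family of disjoint small pieces: every boundary point of the union is an accumulation
point of whole pieces with large constants. -/

namespace Pool.Agent.Y490.GO

open MeasureTheory Filter Topology Set Metric
open scoped ContDiff
open Pool.Agent.Helper676.GF

/-- the weaker constant -/
lemma Piece.mono {C C' : ℝ} {Ω : Set (E 22)} {f u : E 22 → ℝ} (h : Piece C Ω f u)
    (hC : C' ≤ C) : Piece C' Ω f u := by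
  refine ⟨h.isOpen, h.fs, h.fc, h.fsupp, h.us, h.lim, h.weak, ?_⟩
  obtain ⟨x, hx, hlt⟩ := h.pt
  refine ⟨x, hx, lt_of_le_of_lt ?_ hlt⟩
  exact mul_le_mul_of_nonneg_right hC (integral_nonneg fun y => by positivity)

/-- cells: scaled and translated pieces with constant at least `1 / a` inside `ball p a` -/
lemma exists_cells (hP : ∀ C : ℝ, 0 < C → ∃ R > 0, ∃ Ω f u, Piece C Ω f u ∧ Ω ⊆ ball 0 R ∧
      ∀ z, z ∉ Ω → z ∈ closure (closure Ω)ᶜ) :
    ∃ A : E 22 → ℝ → Set (E 22),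
      (∀ p a, 0 < a → (∃ f u, Piece (1 / a) (A p a) f u) ∧ A p a ⊆ ball p a ∧
        ∀ z, z ∉ A p a → z ∈ closure (closure (A p a))ᶜ) ∧
      ∀ δ > 0, ∃ t > 0, ∀ p a, δ ≤ a → ∃ c, ball c t ⊆ A p a := by
  choose R hR Ω f u hpc hΩR hreg using hP
  have hN : ∀ N : ℕ, (0 : ℝ) < (N : ℝ) + 1 := fun N => by positivity
  obtain ⟨N, hNdef⟩ : ∃ N : ℝ → ℕ, N = fun a => ⌈1 / a⌉₊ := ⟨_, rfl⟩
  obtain ⟨lam, hlam⟩ : ∃ lam : ℝ → ℝ, lam = fun a => a / R _ (hN (N a)) := ⟨_, rfl⟩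
  have hlam0 : ∀ a, 0 < a → 0 < lam a := by
    intro a ha
    rw [hlam]
    exact div_pos ha (hR _ _)
  refine ⟨fun p a => (fun x => (lam a)⁻¹ • (x - p)) ⁻¹' Ω _ (hN (N a)), ?_, ?_⟩
  · intro p a ha
    have hl := hlam0 a ha
    refine ⟨⟨_, _, ((hpc _ (hN (N a))).scale hl p).mono ?_⟩, ?_, ?_⟩
    · have h1 : 1 / a ≤ (N a : ℝ) := by rw [hNdef]; exact Nat.le_ceil _
      linarith
    · intro x hx
      have h1 := hΩR _ (hN (N a)) hx
      rw [mem_ball, dist_zero_right, norm_smul,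
        Real.norm_of_nonneg (inv_nonneg.2 hl.le), inv_mul_lt_iff₀ hl] at h1
      rw [mem_ball, dist_eq_norm]
      have h2 : lam a * R _ (hN (N a)) = a := by
        rw [hlam]; exact div_mul_cancel₀ _ (hR _ _).ne'
      rwa [h2] at h1
    · intro z hz
      let H : E 22 ≃ₜ E 22 := ⟨⟨fun x => (lam a)⁻¹ • (x - p), fun z => (lam a) • z + p, fun z => by
        simp only [smul_smul]
        rw [mul_inv_cancel₀ hl.ne', one_smul, sub_add_cancel], fun z => by
        simp only [add_sub_cancel_right, smul_smul]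
        rw [inv_mul_cancel₀ hl.ne', one_smul]⟩, by fun_prop, by fun_prop⟩
      have h1 := hreg _ (hN (N a)) (H z) hz
      have h2 : z ∈ H ⁻¹' closure (closure (Ω _ (hN (N a))))ᶜ := h1
      rw [H.preimage_closure, preimage_compl, H.preimage_closure] at h2
      exact h2
  · intro δ hδ
    -- balls in the model domains
    have hb : ∀ n : ℕ, ∃ c : E 22, ∃ s > 0, ball c s ⊆ Ω _ (hN n) := by
      intro n
      obtain ⟨x, hx, -⟩ := (hpc _ (hN n)).pt
      obtain ⟨s, hs, hsub⟩ := Metric.isOpen_iff.1 (hpc _ (hN n)).isOpen x hx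
      exact ⟨x, s, hs, hsub⟩
    choose c s hs hcs using hb
    have hmin : ∀ M : ℕ, ∃ t > 0, ∀ n ≤ M, t ≤ s n / R _ (hN n) := by
      intro M
      induction M with
      | zero => exact ⟨_, div_pos (hs 0) (hR _ (hN 0)), fun n hn => by
          obtain rfl : n = 0 := by omega
          exact le_rfl⟩
      | succ M ih =>
        obtain ⟨t, ht, ht'⟩ := ih
        refine ⟨min t (s (M + 1) / R _ (hN (M + 1))),
          lt_min ht (div_pos (hs _) (hR _ (hN (M + 1)))), ?_⟩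
        intro n hn
        rcases Nat.lt_or_ge n (M + 1) with h | h
        · exact (min_le_left _ _).trans (ht' n (by omega))
        · obtain rfl : n = M + 1 := by omega
          exact min_le_right _ _
    obtain ⟨t, ht, ht'⟩ := hmin (N δ)
    refine ⟨δ * t, by positivity, ?_⟩
    intro p a ha
    have ha0 : 0 < a := hδ.trans_le ha
    have hl := hlam0 a ha0
    have hNa : N a ≤ N δ := by
      rw [hNdef]
      exact Nat.ceil_le_ceil (one_div_le_one_div_of_le hδ ha)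
    refine ⟨(lam a) • c (N a) + p, ?_⟩
    intro x hx
    apply hcs (N a)
    rw [mem_ball, dist_eq_norm] at hx ⊢
    have e : x - ((lam a) • c (N a) + p) = (lam a) • ((lam a)⁻¹ • (x - p) - c (N a)) := by
      rw [smul_sub, smul_smul, mul_inv_cancel₀ hl.ne', one_smul]
      abel
    rw [e, norm_smul, Real.norm_of_nonneg hl.le] at hx
    have h1 := ht' (N a) hNa
    have h2 : δ * t ≤ lam a * s (N a) := by
      calc δ * t ≤ a * (s (N a) / R _ (hN (N a))) := by gcongr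
        _ = lam a * s (N a) := by rw [hlam]; ring
    exact lt_of_mul_lt_mul_left (hx.trans_le h2) hl.le

/-- the main construction -/
theorem dense_domain (hP : ∀ C : ℝ, 0 < C → ∃ R > 0, ∃ Ω f u, Piece C Ω f u ∧ Ω ⊆ ball 0 R ∧
      ∀ z, z ∉ Ω → z ∈ closure (closure Ω)ᶜ)
    {U : Set (E 22)} (hU : IsOpen U) (hne : U.Nonempty) :
    ∃ Ω ⊆ U, IsOpen Ω ∧ U ⊆ closure Ω ∧ (frontier Ω).Nonempty ∧
      ∀ z ∈ frontier Ω, ∀ ρ > 0, ∀ C : ℝ, ∃ f u, Piece C Ω f u ∧ tsupport f ⊆ ball z ρ ∧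
        ∀ x, x ∉ ball z ρ → u x = 0 := by
  obtain ⟨A, hA, hAvol⟩ := exists_cells hP
  have hAo : ∀ p a, 0 < a → IsOpen (A p a) := by
    intro p a ha
    obtain ⟨f, u, h⟩ := (hA p a ha).1
    exact h.isOpen
  have hAne : ∀ p a, 0 < a → (A p a).Nonempty := by
    intro p a ha
    obtain ⟨f, u, h⟩ := (hA p a ha).1
    obtain ⟨x, hx, -⟩ := h.pt
    exact ⟨x, hx⟩
  have hAcl : ∀ p a, 0 < a → closure (A p a) ⊆ closedBall p a := fun p a ha =>
    closure_minimal ((hA p a ha).2.1.trans ball_subset_closedBall) isClosed_closedBall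
  obtain ⟨t, htdef⟩ : ∃ t : Set (E 22 × ℝ), t = {b | 0 < b.2 ∧ b.2 ≤ 1 ∧
    closedBall b.1 b.2 ⊆ U} := ⟨_, rfl⟩
  have ht0 : ∀ b ∈ t, 0 < b.2 ∧ b.2 ≤ 1 ∧ closedBall b.1 b.2 ⊆ U := by
    intro b hb; rw [htdef] at hb; exact hb
  obtain ⟨F, hFt, hFd, hFmax⟩ := Vitali.exists_disjoint_subfamily_covering_enlargement
    (fun b : E 22 × ℝ => closure (A b.1 b.2)) t (fun _ => 0) 2 (by norm_num)
    (fun _ _ => le_rfl) 0 (fun _ _ => le_rfl) (fun b hb => (hAne b.1 b.2 (ht0 b hb).1).closure)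
  obtain ⟨Ω, hΩ⟩ : ∃ Ω : Set (E 22), Ω = ⋃ b ∈ F, A b.1 b.2 := ⟨_, rfl⟩
  have hF0 : ∀ b ∈ F, 0 < b.2 ∧ b.2 ≤ 1 ∧ closedBall b.1 b.2 ⊆ U := fun b hb => ht0 b (hFt hb)
  have hΩo : IsOpen Ω := by
    rw [hΩ]; exact isOpen_biUnion fun b hb => hAo b.1 b.2 (hF0 b hb).1
  have hΩU : Ω ⊆ U := by
    rw [hΩ]
    exact iUnion₂_subset fun b hb =>
      ((hA b.1 b.2 (hF0 b hb).1).2.1.trans ball_subset_closedBall).trans (hF0 b hb).2.2
  have hsubΩ : ∀ b ∈ F, A b.1 b.2 ⊆ Ω := fun b hb => by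
    rw [hΩ]; exact subset_biUnion_of_mem (u := fun b : E 22 × ℝ => A b.1 b.2) hb
  -- every non-empty open subset of `U` meets the closure of a cell
  have hmeet : ∀ V : Set (E 22), IsOpen V → V ⊆ U → V.Nonempty →
      ∃ b ∈ F, (closure (A b.1 b.2) ∩ V).Nonempty := by
    intro V hV hVU hVne
    obtain ⟨v, hv⟩ := hVne
    obtain ⟨s, hs, hsV⟩ := Metric.isOpen_iff.1 hV v hv
    have hs' : 0 < min (s / 2) 1 := by positivity
    have hsub : closedBall v (min (s / 2) 1) ⊆ V := by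
      refine (closedBall_subset_ball ?_).trans hsV
      have := min_le_left (s / 2) 1
      linarith
    have hmem : ((v, min (s / 2) 1) : E 22 × ℝ) ∈ t := by
      rw [htdef]
      exact ⟨hs', min_le_right _ _, hsub.trans hVU⟩
    obtain ⟨b, hb, ⟨x, hx1, hx2⟩, -⟩ := hFmax _ hmem
    exact ⟨b, hb, x, hx2, hsub (hAcl v _ hs' hx1)⟩
  -- local finiteness of the large cells
  have hfin : ∀ z : E 22, ∀ δ > 0,
      {b | b ∈ F ∧ δ ≤ b.2 ∧ (closure (A b.1 b.2) ∩ ball z 1).Nonempty}.Finite := by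
    intro z δ hδ
    obtain ⟨τ, hτ, hτ'⟩ := hAvol δ hδ
    obtain ⟨S, hS⟩ : ∃ S : Set (E 22 × ℝ), S = {b | b ∈ F ∧ δ ≤ b.2 ∧
      (closure (A b.1 b.2) ∩ ball z 1).Nonempty} := ⟨_, rfl⟩
    rw [← hS]
    have hSF : ∀ b ∈ S, b ∈ F ∧ δ ≤ b.2 ∧ (closure (A b.1 b.2) ∩ ball z 1).Nonempty := by
      intro b hb; rw [hS] at hb; exact hb
    have hm := Measure.finite_const_le_meas_of_disjoint_iUnion (volume : Measure (E 22))
      (ε := volume (ball (0 : E 22) τ)) (measure_ball_pos _ _ hτ)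
      (As := fun b : S => A b.1.1 b.1.2)
      (fun b => (hAo _ _ (hF0 _ (hSF _ b.2).1).1).measurableSet)
      (by
        intro b b' hbb
        have h1 := hFd (hSF _ b.2).1 (hSF _ b'.2).1 (fun h => hbb (Subtype.ext h))
        exact Disjoint.mono subset_closure subset_closure h1)
      (by
        apply ne_top_of_le_ne_top (b := volume (ball z 4)) measure_ball_lt_top.ne
        apply measure_mono
        refine iUnion_subset fun b => ?_
        obtain ⟨h1, h2, w, hw1, hw2⟩ := hSF _ b.2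
        have h3 := hAcl _ _ (hF0 _ h1).1 hw1
        have h4 := (hF0 _ h1).2.1
        intro x hx
        have h5 := (hA _ _ (hF0 _ h1).1).2.1 hx
        rw [mem_ball] at h5 hw2 ⊢
        rw [mem_closedBall] at h3
        have h6 := dist_triangle x b.1.1 z
        have h7 := dist_triangle b.1.1 w z
        rw [dist_comm b.1.1 w] at h7
        linarith)
    have huniv : {b : S | volume (ball (0 : E 22) τ) ≤ volume (A b.1.1 b.1.2)} = univ := by
      ext b
      simp only [mem_setOf_eq, mem_univ, iff_true]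
      obtain ⟨c, hc⟩ := hτ' b.1.1 b.1.2 (hSF _ b.2).2.1
      rw [← Measure.addHaar_ball_center volume c τ]
      exact measure_mono hc
    rw [huniv] at hm
    exact Set.finite_coe_iff.1 (Set.finite_univ_iff.1 hm)
  -- the main claim
  have hmain : ∀ z ∈ closure U, z ∉ Ω → ∀ ρ > 0, ∀ C : ℝ, ∃ b ∈ F,
      A b.1 b.2 ⊆ ball z ρ ∧ C ≤ 1 / b.2 := by
    intro z hzU hzΩ ρ hρ C
    obtain ⟨δ, hδdef⟩ : ∃ δ : ℝ, δ = min (min (ρ / 4) 1) (1 / (|C| + 1)) := ⟨_, rfl⟩
    have hC0 : 0 < |C| + 1 := by positivity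
    have hδ : 0 < δ := by rw [hδdef]; positivity
    have hδρ : δ ≤ ρ / 4 := by
      rw [hδdef]; exact (min_le_left _ _).trans (min_le_left _ _)
    have hδ1 : δ ≤ 1 := by
      rw [hδdef]; exact (min_le_left _ _).trans (min_le_right _ _)
    have hδC : δ ≤ 1 / (|C| + 1) := by rw [hδdef]; exact min_le_right _ _
    obtain ⟨S, hS⟩ : ∃ S : Set (E 22 × ℝ), S = {b | b ∈ F ∧ δ ≤ b.2 ∧
      (closure (A b.1 b.2) ∩ ball z 1).Nonempty} := ⟨_, rfl⟩
    have hSfin : S.Finite := by rw [hS]; exact hfin z δ hδ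
    obtain ⟨K, hK⟩ : ∃ K : Set (E 22), K = ⋃ b ∈ {b | b ∈ S ∧ z ∉ closure (A b.1 b.2)},
      closure (A b.1 b.2) := ⟨_, rfl⟩
    have hKc : IsClosed K := by
      rw [hK]
      exact (hSfin.subset fun b hb => hb.1).isClosed_biUnion fun b _ => isClosed_closure
    have hzK : z ∉ K := by
      rw [hK]
      simp only [mem_iUnion, not_exists]
      rintro b ⟨-, hb⟩ h
      exact hb h
    obtain ⟨W, hW⟩ : ∃ W : Set (E 22), W = ball z δ ∩ Kᶜ := ⟨_, rfl⟩
    have hWo : IsOpen W := by rw [hW]; exact isOpen_ball.inter hKc.isOpen_compl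
    have hzW : z ∈ W := by rw [hW]; exact ⟨mem_ball_self hδ, hzK⟩
    -- a non-empty open set `V ⊆ U ∩ W` off the cell whose closure contains `z`
    obtain ⟨V, hVo, hVU, hVW, hVne, hVz⟩ : ∃ V : Set (E 22), IsOpen V ∧ V ⊆ U ∧ V ⊆ W ∧
        V.Nonempty ∧ ∀ b ∈ F, z ∈ closure (A b.1 b.2) → Disjoint (closure (A b.1 b.2)) V := by
      by_cases hex : ∃ b ∈ F, z ∈ closure (A b.1 b.2)
      · obtain ⟨b, hb, hzb⟩ := hex
        have hz1 : z ∉ A b.1 b.2 := fun h => hzΩ (hsubΩ b hb h)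
        have hz2 := (hA b.1 b.2 (hF0 b hb).1).2.2 z hz1
        have hzU' : z ∈ U := (hF0 b hb).2.2 (hAcl _ _ (hF0 b hb).1 hzb)
        obtain ⟨v, hv1, hv2⟩ := mem_closure_iff.1 hz2 (U ∩ W) (hU.inter hWo) ⟨hzU', hzW⟩
        refine ⟨U ∩ W ∩ (closure (A b.1 b.2))ᶜ,
          (hU.inter hWo).inter isClosed_closure.isOpen_compl, fun x hx => hx.1.1,
          fun x hx => hx.1.2, ⟨v, hv1, hv2⟩, ?_⟩
        intro b' hb' hzb'
        have e : b' = b := by
          by_contra hne'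
          exact disjoint_left.1 (hFd hb' hb hne') hzb' hzb
        rw [e, disjoint_left]
        exact fun x hx hx2 => hx2.2 hx
      · obtain ⟨v, hv1, hv2⟩ := mem_closure_iff.1 hzU W hWo hzW
        refine ⟨U ∩ W, hU.inter hWo, inter_subset_left, inter_subset_right, ⟨v, hv2, hv1⟩, ?_⟩
        intro b hb hzb
        exact absurd ⟨b, hb, hzb⟩ hex
    obtain ⟨b, hb, w, hw1, hw2⟩ := hmeet V hVo hVU hVne
    have hwW := hVW hw2
    rw [hW] at hwW
    have hb2 : b.2 < δ := by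
      by_contra hcon
      push Not at hcon
      have hbS : b ∈ S := by
        rw [hS]
        exact ⟨hb, hcon, w, hw1, ball_subset_ball hδ1 hwW.1⟩
      by_cases hzb : z ∈ closure (A b.1 b.2)
      · exact disjoint_left.1 (hVz b hb hzb) hw1 hw2
      · apply hwW.2
        rw [hK]
        exact mem_biUnion (show b ∈ {b | b ∈ S ∧ z ∉ closure (A b.1 b.2)} from ⟨hbS, hzb⟩) hw1
    have hb0 := (hF0 b hb).1
    refine ⟨b, hb, ?_, ?_⟩
    · intro x hx
      have h1 := (hA b.1 b.2 hb0).2.1 hx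
      have h2 := hAcl _ _ hb0 hw1
      have h3 := hwW.1
      rw [mem_ball] at h1 h3 ⊢
      rw [mem_closedBall] at h2
      have h6 := dist_triangle x b.1 z
      have h7 := dist_triangle b.1 w z
      rw [dist_comm b.1 w] at h7
      linarith
    · have h1 : b.2 ≤ 1 / (|C| + 1) := hb2.le.trans hδC
      rw [le_div_iff₀ hb0]
      rw [le_div_iff₀ hC0] at h1
      have h2 := le_abs_self C
      nlinarith
  -- pieces of `Ω`
  have hpiece : ∀ b ∈ F, ∃ f u, Piece (1 / b.2) Ω f u ∧ tsupport f ⊆ A b.1 b.2 ∧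
      ∀ x, x ∉ A b.1 b.2 → u x = 0 := by
    intro b hb
    obtain ⟨f, u, h⟩ := (hA b.1 b.2 (hF0 b hb).1).1
    have hB : IsOpen (⋃ k ∈ {k | k ∈ F ∧ k ≠ b}, A k.1 k.2) :=
      isOpen_biUnion fun k hk => hAo _ _ (hF0 k hk.1).1
    have hAB : Disjoint (A b.1 b.2) (⋃ k ∈ {k | k ∈ F ∧ k ≠ b}, A k.1 k.2) := by
      rw [disjoint_iUnion₂_right]
      intro k hk
      exact Disjoint.mono subset_closure subset_closure (hFd hb hk.1 (Ne.symm hk.2))
    have e : Ω = A b.1 b.2 ∪ ⋃ k ∈ {k | k ∈ F ∧ k ≠ b}, A k.1 k.2 := by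
      rw [hΩ]
      ext x
      simp only [mem_iUnion, mem_union, mem_setOf_eq, exists_prop]
      constructor
      · rintro ⟨k, hk, hx⟩
        by_cases hkj : k = b
        · left; rwa [hkj] at hx
        · right; exact ⟨k, ⟨hk, hkj⟩, hx⟩
      · rintro (h | ⟨k, ⟨hk, -⟩, hx⟩)
        · exact ⟨b, hb, h⟩
        · exact ⟨k, hk, hx⟩
    have h2 := h.add hB hAB
    rw [← e] at h2
    exact ⟨f, _, h2, h.fsupp, fun x hx => indicator_of_notMem hx _⟩
  have hdense : U ⊆ closure Ω := by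
    intro z hz
    by_cases hzΩ : z ∈ Ω
    · exact subset_closure hzΩ
    · rw [Metric.mem_closure_iff]
      intro ε hε
      obtain ⟨b, hb, hbz, -⟩ := hmain z (subset_closure hz) hzΩ ε hε 0
      obtain ⟨x, hx⟩ := hAne b.1 b.2 (hF0 b hb).1
      exact ⟨x, hsubΩ b hb hx, by rw [dist_comm]; exact hbz hx⟩
  refine ⟨Ω, hΩU, hΩo, hdense, ?_, ?_⟩
  · -- the boundary is not empty
    obtain ⟨b, hb, -⟩ := hmeet U hU Subset.rfl hne
    have hfr : (frontier (A b.1 b.2)).Nonempty := by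
      rw [nonempty_iff_ne_empty, Ne, frontier_eq_empty_iff, not_or]
      refine ⟨(hAne _ _ (hF0 b hb).1).ne_empty, ?_⟩
      intro huniv
      have h1 : (univ : Set (E 22)) ⊆ ball b.1 b.2 := by
        rw [← huniv]; exact (hA _ _ (hF0 b hb).1).2.1
      have h2 := h1 (mem_univ (b.1 + (b.2 • (EuclideanSpace.single 0 1 : E 22))))
      rw [mem_ball, dist_eq_norm, add_sub_cancel_left, norm_smul,
        Real.norm_of_nonneg (hF0 b hb).1.le] at h2
      simp at h2
    obtain ⟨z, hz⟩ := hfr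
    rw [(hAo _ _ (hF0 b hb).1).frontier_eq] at hz
    refine ⟨z, ?_⟩
    rw [hΩo.frontier_eq]
    refine ⟨closure_mono (hsubΩ b hb) hz.1, ?_⟩
    intro hzΩ
    rw [hΩ] at hzΩ
    simp only [mem_iUnion, exists_prop] at hzΩ
    obtain ⟨k, hk, hzk⟩ := hzΩ
    have e : k = b := by
      by_contra hne'
      exact disjoint_left.1 (hFd hk hb hne') (subset_closure hzk) hz.1
    rw [e] at hzk
    exact hz.2 hzk
  · intro z hz ρ hρ C
    rw [hΩo.frontier_eq] at hz
    obtain ⟨b, hb, hbz, hbC⟩ := hmain z (closure_mono hΩU hz.1) hz.2 ρ hρ C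
    obtain ⟨f, u, h1, h2, h3⟩ := hpiece b hb
    exact ⟨f, u, h1.mono hbC, h2.trans hbz, fun x hx => h3 x fun h => hx (hbz h)⟩

end Pool.Agent.Y490.GO
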