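import Pool.Agent.Helper676.GF8

set_option autoImplicit false

/-! The layers of the starting library (Helper676.GF8) with bounded supports. -/

namespace Pool.Agent.Y490.GO

open MeasureTheory Filter Topology Set Metric
open scoped ContDiff
open Pool.Agent.Helper676.GF

theorem layersB {ι : Type*} [DecidableEq ι] (J : Finset ι) (p : ι → E 22) (a κ : ι → ℝ)
    (ha : ∀ j ∈ J, 0 < a j) (hdisj : ∀ i ∈ J, ∀ j ∈ J, i ≠ j → 2 * a i + 2 * a j ≤ ‖p i - p j‖)
    {Ω : Set (E 22)} (hΩ : Ω = {x | ∀ j ∈ J, a j < ‖x - p j‖}) (hΩo : IsOpen Ω)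
    {Ψ : E 22 → ℝ}
    (hΨ : ContDiffOn ℝ ∞ Ψ {x | ∀ j ∈ J, x ≠ p j}) {L0 : ℝ} (hΨL : ∀ x, L0 ≤ ‖x‖ → Ψ x = 0)
    (hΨh : ∀ j ∈ J, ∀ x, x ≠ p j → ‖x - p j‖ ≤ 3 / 2 * a j →
      Ψ x = κ j * (1 - hr (‖(a j)⁻¹ • (x - p j)‖ ^ 2))) :
    ∃ L1 : ℝ, L0 ≤ L1 ∧ ∃ ψ : ℕ → E 22 → ℝ, (∀ i, ContDiff ℝ ∞ (ψ i) ∧ HasCompactSupport (ψ i) ∧
        tsupport (ψ i) ⊆ Ω ∩ closedBall 0 L1) ∧
      (∃ e : ℕ → ℝ, Tendsto e atTop (𝓝 0) ∧
        ∀ i k, ∫ x, (lap (lap (fun z => ψ i z - ψ k z)) x) ^ 2 ≤ e i + e k) ∧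
      ∀ L, IsCompact L → L ⊆ Ω → Tendsto (fun i => ∫ x in L, |ψ i x - Ψ x|) atTop (𝓝 0) := by
  obtain ⟨Θ, hΘs, hΘ0, hΘ1, hΘi, hΘl, hΘv⟩ := shell2
  set O : Set (E 22) := {x | ∀ j ∈ J, x ≠ p j} with hO
  have hOo : IsOpen O := avoid_open J p
  have hΩO : Ω ⊆ O := by
    intro x hx j hj h
    rw [hΩ] at hx
    have := hx j hj
    rw [h, sub_self, norm_zero] at this
    linarith [ha j hj]
  -- the layers
  set T : ℕ → ι → E 22 → ℝ := fun i j x => Θ i ((a j)⁻¹ • (x - p j)) with hT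
  have hTs : ∀ i, ∀ j ∈ J, ContDiffOn ℝ ∞ (T i j) O := by
    intro i j hj
    apply (hΘs i).comp
    · exact ((contDiff_id.sub contDiff_const).const_smul (a j)⁻¹).contDiffOn
    · intro x hx
      simp only [mem_compl_iff, mem_singleton_iff, smul_eq_zero, inv_eq_zero, sub_eq_zero, not_or]
      exact ⟨(ha j hj).ne', hx j hj⟩
  have hnorm : ∀ j ∈ J, ∀ x, ‖(a j)⁻¹ • (x - p j)‖ = (a j)⁻¹ * ‖x - p j‖ := by
    intro j hj x
    rw [norm_smul, Real.norm_of_nonneg (inv_nonneg.2 (ha j hj).le)]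
  have hT0 : ∀ i, ∀ j ∈ J, ∀ x, 3 / 2 * a j ≤ ‖x - p j‖ → T i j x = 0 := by
    intro i j hj x hx
    apply hΘ0
    rw [hnorm j hj, le_inv_mul_iff₀ (ha j hj)]
    linarith
  set W : ℕ → E 22 → ℝ := fun i x => ∑ j ∈ J, κ j * T i j x with hW
  have hWs : ∀ i, ContDiffOn ℝ ∞ (W i) O := fun i =>
    ContDiffOn.sum fun j hj => contDiffOn_const.mul (hTs i j hj)
  -- near a hole
  have hnear : ∀ i, ∃ r > 1, ∀ j ∈ J, ∀ x, x ≠ p j → ‖x - p j‖ < r * a j → Ψ x = W i x := by
    intro i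
    obtain ⟨r, hr, hr'⟩ := hΘ1 i
    refine ⟨min r (3 / 2), lt_min hr (by norm_num), ?_⟩
    intro j hj x hxp hx
    have haj := ha j hj
    have h1 : ‖x - p j‖ < r * a j :=
      hx.trans_le (mul_le_mul_of_nonneg_right (min_le_left _ _) haj.le)
    have h2 : ‖x - p j‖ < 3 / 2 * a j :=
      hx.trans_le (mul_le_mul_of_nonneg_right (min_le_right _ _) haj.le)
    rw [hΨh j hj x hxp h2.le]
    simp only [hW]
    rw [Finset.sum_eq_single j]
    · congr 1
      symm
      apply hr'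
      · simp only [ne_eq, smul_eq_zero, inv_eq_zero, sub_eq_zero, not_or]
        exact ⟨haj.ne', hxp⟩
      · rw [hnorm j hj, inv_mul_lt_iff₀ haj]
        linarith
    · intro k hk hkj
      rw [hT0 i k hk x, mul_zero]
      have h3 := hdisj k hk j hj hkj
      have h4 : ‖p k - p j‖ ≤ ‖x - p k‖ + ‖x - p j‖ := by
        have : p k - p j = (x - p j) - (x - p k) := by abel
        rw [this]
        calc _ ≤ ‖x - p j‖ + ‖x - p k‖ := norm_sub_le _ _
          _ = _ := add_comm _ _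
      have := ha k hk
      linarith
    · intro h; exact absurd hj h
  -- far away
  obtain ⟨L1, hL1, hL1'⟩ : ∃ L1 : ℝ, L0 ≤ L1 ∧ ∀ i, ∀ x, L1 ≤ ‖x‖ → W i x = 0 := by
    refine ⟨max L0 (∑ j ∈ J, (‖p j‖ + 2 * a j)), le_max_left _ _, ?_⟩
    intro i x hx
    simp only [hW]
    apply Finset.sum_eq_zero
    intro j hj
    rw [hT0 i j hj x, mul_zero]
    have h1 : ‖p j‖ + 2 * a j ≤ ∑ j ∈ J, (‖p j‖ + 2 * a j) :=
      Finset.single_le_sum (f := fun j => ‖p j‖ + 2 * a j)
        (fun k hk => by have := ha k hk; positivity) hj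
    have h2 : ‖p j‖ + 2 * a j ≤ ‖x‖ := h1.trans ((le_max_right _ _).trans hx)
    have h3 : ‖x‖ ≤ ‖x - p j‖ + ‖p j‖ := by
      calc ‖x‖ = ‖(x - p j) + p j‖ := by rw [sub_add_cancel]
        _ ≤ _ := norm_add_le _ _
    have := ha j hj
    linarith
  -- the approximating test functions
  set ψ : ℕ → E 22 → ℝ := fun i => Ω.indicator (fun x => Ψ x - W i x) with hψ
  have hψK : ∀ i, ∃ K : Set (E 22), IsCompact K ∧ K ⊆ Ω ∧ K ⊆ closedBall 0 L1 ∧
      ∀ x, x ∉ K → ψ i x = 0 := by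
    intro i
    obtain ⟨r, hr, hr'⟩ := hnear i
    refine ⟨closedBall 0 L1 ∩ {x | ∀ j ∈ J, r * a j ≤ ‖x - p j‖}, ?_, ?_, inter_subset_left, ?_⟩
    · apply (isCompact_closedBall _ _).inter_right
      have : {x : E 22 | ∀ j ∈ J, r * a j ≤ ‖x - p j‖} = ⋂ j ∈ J, {x | r * a j ≤ ‖x - p j‖} := by
        ext x; simp
      rw [this]
      exact isClosed_biInter fun j _ => isClosed_le continuous_const (by fun_prop)
    · intro x hx
      rw [hΩ]
      intro j hj
      have h1 := hx.2 j hj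
      have h2 := ha j hj
      nlinarith
    · intro x hx
      simp only [hψ]
      by_cases hxΩ : x ∈ Ω
      · rw [indicator_of_mem hxΩ]
        by_cases hxL : ‖x‖ ≤ L1
        · have : ∃ j ∈ J, ‖x - p j‖ < r * a j := by
            by_contra hcon
            push Not at hcon
            exact hx ⟨by simpa using hxL, hcon⟩
          obtain ⟨j, hj, hj'⟩ := this
          rw [hr' j hj x (hΩO hxΩ j hj) hj', sub_self]
        · push Not at hxL
          rw [hΨL x (hL1.trans hxL.le), hL1' i x hxL.le, sub_self]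
      · exact indicator_of_notMem hxΩ _
  have hψd' : ∀ i, ContDiff ℝ ∞ (ψ i) ∧ HasCompactSupport (ψ i) ∧
      tsupport (ψ i) ⊆ Ω ∩ closedBall 0 L1 := by
    intro i
    obtain ⟨K, hK, hKΩ, hKB, hK0⟩ := hψK i
    have hts : tsupport (ψ i) ⊆ K := by
      refine closure_minimal ?_ hK.isClosed
      intro x hx
      by_contra h
      exact hx (hK0 x h)
    refine ⟨?_, HasCompactSupport.intro hK hK0, hts.trans (subset_inter hKΩ hKB)⟩
    rw [contDiff_iff_contDiffAt]
    intro x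
    by_cases hx : x ∈ Ω
    · have e : ψ i =ᶠ[𝓝 x] fun x => Ψ x - W i x := by
        filter_upwards [hΩo.mem_nhds hx] with y hy
        exact indicator_of_mem hy _
      refine ContDiffAt.congr_of_eventuallyEq ?_ e
      exact (hΨ.sub (hWs i)).contDiffAt (hOo.mem_nhds (hΩO hx))
    · have hx' : x ∈ Kᶜ := fun h => hx (hKΩ h)
      have e : ψ i =ᶠ[𝓝 x] fun _ => 0 := by
        filter_upwards [hK.isClosed.isOpen_compl.mem_nhds hx'] with y hy
        exact hK0 y hy
      exact contDiffAt_const.congr_of_eventuallyEq e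
  have hψd : ∀ i, ContDiff ℝ ∞ (ψ i) ∧ HasCompactSupport (ψ i) ∧ tsupport (ψ i) ⊆ Ω := fun i =>
    ⟨(hψd' i).1, (hψd' i).2.1, (hψd' i).2.2.trans inter_subset_left⟩
  -- energies
  obtain ⟨En, hEn⟩ : ∃ En : ℕ → ℝ, En = fun i => ∫ z in {z : E 22 | 1 < ‖z‖},
    (lap (lap (Θ i)) z) ^ 2 := ⟨_, rfl⟩
  rw [← hEn] at hΘl
  set Q : ℕ → E 22 → ℝ := fun i x => J.card * ∑ j ∈ J, (κ j * lap (lap (T i j)) x) ^ 2 with hQ
  set q : ℕ → ℝ := fun i => J.card * ∑ j ∈ J, κ j ^ 2 * (a j ^ 14 * En i) with hq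
  have hTi : ∀ i, ∀ j ∈ J, IntegrableOn (fun x => (κ j * lap (lap (T i j)) x) ^ 2) Ω ∧
      ∫ x in Ω, (κ j * lap (lap (T i j)) x) ^ 2 ≤ κ j ^ 2 * (a j ^ 14 * En i) := by
    intro i j hj
    obtain ⟨h1, h2⟩ := energy_scale (hΘs i) (hΘi i) (ha j hj) (p j)
    have hsub : Ω ⊆ {x | a j < ‖x - p j‖} := by
      intro x hx
      rw [hΩ] at hx
      exact hx j hj
    have h3 : IntegrableOn (fun x => κ j ^ 2 * (lap (lap (T i j)) x) ^ 2)
        {x | a j < ‖x - p j‖} := h1.const_mul _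
    have e1 : (fun x => (κ j * lap (lap (T i j)) x) ^ 2) =
        fun x => κ j ^ 2 * (lap (lap (T i j)) x) ^ 2 := by ext x; ring
    rw [e1]
    refine ⟨h3.mono_set hsub, ?_⟩
    calc ∫ x in Ω, κ j ^ 2 * (lap (lap (T i j)) x) ^ 2
        ≤ ∫ x in {x | a j < ‖x - p j‖}, κ j ^ 2 * (lap (lap (T i j)) x) ^ 2 := by
          apply setIntegral_mono_set h3
          · exact Eventually.of_forall fun x => by positivity
          · exact hsub.eventuallyLE
      _ = κ j ^ 2 * (a j ^ 14 * En i) := by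
          rw [integral_const_mul, h2, hEn]
  have hQi : ∀ i, IntegrableOn (Q i) Ω := by
    intro i
    apply Integrable.const_mul
    exact integrable_finsetSum J fun j hj => (hTi i j hj).1
  have hQq : ∀ i, ∫ x in Ω, Q i x ≤ q i := by
    intro i
    simp only [hQ, hq]
    rw [integral_const_mul, integral_finsetSum J fun j hj => (hTi i j hj).1]
    apply mul_le_mul_of_nonneg_left _ (by positivity)
    exact Finset.sum_le_sum fun j hj => (hTi i j hj).2
  have hWQ : ∀ i, ∀ x ∈ Ω, (lap (lap (W i)) x) ^ 2 ≤ Q i x := by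
    intro i x hx
    simp only [hW, hQ]
    rw [lap2_sum J hOo κ (fun j hj => hTs i j hj) (hΩO hx)]
    exact sq_sum_le_card_mul_sum_sq
  refine ⟨L1, hL1, ψ, hψd', ⟨fun i => 2 * q i, ?_, ?_⟩, ?_⟩
  · have h1 : Tendsto q atTop (𝓝 (J.card * ∑ j ∈ J, κ j ^ 2 * (a j ^ 14 * 0))) := by
      apply Tendsto.const_mul
      apply tendsto_finsetSum
      intro j _
      exact (hΘl.const_mul _).const_mul _
    have h2 := h1.const_mul 2
    simpa using h2
  · intro i k
    obtain ⟨g1, g2, g3⟩ := hψd i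
    obtain ⟨g1', g2', g3'⟩ := hψd k
    have hts : tsupport (fun z => ψ i z - ψ k z) ⊆ Ω :=
      (tsupport_sub (ψ i) (ψ k)).trans (union_subset g3 g3')
    have hz : ∀ x, x ∉ Ω → lap (lap (fun z => ψ i z - ψ k z)) x = 0 := by
      intro x hx
      apply image_eq_zero_of_notMem_tsupport
      intro h
      exact hx (hts (lap_tsupport _ (lap_tsupport _ h)))
    rw [← setIntegral_eq_integral_of_forall_compl_eq_zero (s := Ω) (fun x hx => by
      rw [hz x hx]; norm_num)]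
    have hpt : ∀ x ∈ Ω, (lap (lap (fun z => ψ i z - ψ k z)) x) ^ 2 ≤ 2 * Q i x + 2 * Q k x := by
      intro x hx
      have e : (fun z => ψ i z - ψ k z) =ᶠ[𝓝 x] fun z => 1 * W k z + (-1) * W i z := by
        filter_upwards [hΩo.mem_nhds hx] with y hy
        simp only [hψ]
        have h1 := indicator_of_mem hy (fun x => Ψ x - W i x)
        have h2 := indicator_of_mem hy (fun x => Ψ x - W k x)
        rw [h1, h2]
        ring
      have e2 : lap (fun z => ψ i z - ψ k z) =ᶠ[𝓝 x] lap (fun z => 1 * W k z + (-1) * W i z) := by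
        filter_upwards [e.eventually_nhds] with y hy
        exact lap_congr hy
      rw [lap_congr e2, lap2_lin hOo (hWs k) (hWs i) 1 (-1) (hΩO hx)]
      have h1 := hWQ i x hx
      have h2 := hWQ k x hx
      nlinarith [sq_nonneg (lap (lap (W k)) x + lap (lap (W i)) x)]
    calc ∫ x in Ω, (lap (lap (fun z => ψ i z - ψ k z)) x) ^ 2
        ≤ ∫ x in Ω, (2 * Q i x + 2 * Q k x) := by
          apply integral_mono_of_nonneg
          · exact Eventually.of_forall fun x => sq_nonneg _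
          · exact ((hQi i).const_mul 2).add ((hQi k).const_mul 2)
          · rw [EventuallyLE, ae_restrict_iff' hΩo.measurableSet]
            exact Eventually.of_forall hpt
      _ = 2 * (∫ x in Ω, Q i x) + 2 * ∫ x in Ω, Q k x := by
          have e1 := integral_const_mul (μ := volume.restrict Ω) (2 : ℝ) (Q i)
          have e2 := integral_const_mul (μ := volume.restrict Ω) (2 : ℝ) (Q k)
          rw [integral_add ((hQi i).const_mul 2) ((hQi k).const_mul 2), e1, e2]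
      _ ≤ 2 * q i + 2 * q k := by
          have h1 := hQq i
          have h2 := hQq k
          linarith
  · intro L hL hLΩ
    have hev : ∀ᶠ i in atTop, ∀ j ∈ J, ∀ x ∈ L, T i j x = 0 := by
      rw [Filter.eventually_all_finset]
      intro j hj
      have haj := ha j hj
      obtain ⟨ρ, hρ, hρL⟩ : ∃ ρ > 1, ∀ x ∈ L, ρ ≤ (a j)⁻¹ * ‖x - p j‖ := by
        rcases L.eq_empty_or_nonempty with hLe | hLne
        · exact ⟨2, by norm_num, by simp [hLe]⟩
        · obtain ⟨x0, hx0, hmin⟩ := hL.exists_isMinOn hLne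
            (f := fun x => (a j)⁻¹ * ‖x - p j‖) (by fun_prop)
          refine ⟨(a j)⁻¹ * ‖x0 - p j‖, ?_, fun x hx => hmin hx⟩
          have h1 := hLΩ hx0
          rw [hΩ] at h1
          have h2 := h1 j hj
          rw [gt_iff_lt, lt_inv_mul_iff₀ haj, mul_one]
          exact h2
      filter_upwards [hΘv ρ hρ] with i hi x hx
      apply hi
      rw [hnorm j hj]
      exact hρL x hx
    have h0 : Tendsto (fun _ : ℕ => (0 : ℝ)) atTop (𝓝 0) := tendsto_const_nhds
    refine h0.congr' ?_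
    filter_upwards [hev] with i hi
    symm
    rw [setIntegral_congr_fun (g := fun _ => (0 : ℝ)) hL.measurableSet]
    · simp
    · intro x hx
      simp only [hψ]
      rw [indicator_of_mem (hLΩ hx)]
      have : W i x = 0 := by
        simp only [hW]
        exact Finset.sum_eq_zero fun j hj => by rw [hi j hj x hx, mul_zero]
      rw [this, sub_zero, sub_self, abs_zero]

end Pool.Agent.Y490.GO
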