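import Pool.Agent.Helper676.GF12
import Pool.Agent.Y490.GO.Layers

set_option autoImplicit false

/-! The primal statement of the starting library (Helper676.GF12) with a bounded domain. -/

namespace Pool.Agent.Y490.GO

open MeasureTheory Filter Topology Set Metric
open scoped ContDiff
open Pool.Agent.Helper676.GF

/-- a ball with round holes is a regular open set -/
lemma reg_holes {ι : Type*} (J : Finset ι) (p : ι → E 22) (a : ι → ℝ) (ha : ∀ j ∈ J, 0 < a j)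
    {R : ℝ} (hR : 0 < R) (z : E 22)
    (hz : z ∉ {x : E 22 | ∀ j ∈ J, a j < ‖x - p j‖} ∩ ball 0 R) :
    z ∈ closure (closure ({x : E 22 | ∀ j ∈ J, a j < ‖x - p j‖} ∩ ball 0 R))ᶜ := by
  by_cases h : z ∈ ball (0 : E 22) R
  · have h2 : ∃ j ∈ J, ‖z - p j‖ ≤ a j := by
      by_contra hcon
      push Not at hcon
      exact hz ⟨hcon, h⟩
    obtain ⟨j, hj, hjz⟩ := h2
    have h3 : ball (p j) (a j) ⊆ (closure ({x : E 22 | ∀ j ∈ J, a j < ‖x - p j‖} ∩ ball 0 R))ᶜ := by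
      rw [subset_compl_comm]
      apply closure_minimal _ isOpen_ball.isClosed_compl
      intro x hx hxb
      have h4 := hx.1 j hj
      rw [mem_ball, dist_eq_norm] at hxb
      linarith
    apply closure_mono h3
    rw [closure_ball _ (ha j hj).ne', mem_closedBall, dist_eq_norm]
    exact hjz
  · have h3 : (closedBall (0 : E 22) R)ᶜ ⊆
        (closure ({x : E 22 | ∀ j ∈ J, a j < ‖x - p j‖} ∩ ball 0 R))ᶜ := by
      apply compl_subset_compl.2
      apply closure_minimal _ isClosed_closedBall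
      exact inter_subset_right.trans ball_subset_closedBall
    apply closure_mono h3
    rw [closure_compl, interior_closedBall _ hR.ne']
    exact h

theorem primalB {f Φc V : E 22 → ℝ} {τ Vm C : ℝ} (hτ : 0 < τ) (hC : 0 ≤ C)
    (hf : ContDiff ℝ ∞ f) (hfc : HasCompactSupport f) (hf0 : ∀ x, 0 ≤ f x)
    (hΦ : ContDiff ℝ ∞ Φc) (hΦc : HasCompactSupport Φc) (hV0 : ∀ x, 0 ≤ V x)
    (hVm : ∀ x, Φc x ≠ 0 → V x ≤ Vm) (hg : ContDiff ℝ ∞ (fun x => V x * Φc x))
    (hsep : ∀ x y, f x ≠ 0 → V y * Φc y ≠ 0 → τ ≤ ‖x - y‖)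
    (hlt : ∫ x, (C * ∫ y, ((‖x - y‖ ^ 2) ^ 7)⁻¹ * f y) * |lap4 Φc x + V x * Φc x| <
      |∫ x, f x * Φc x|) :
    ∃ (R : ℝ) (Ω : Set (E 22)) (g u : E 22 → ℝ), 0 < R ∧ IsOpen Ω ∧ Ω ⊆ ball 0 R ∧
      (∀ z, z ∉ Ω → z ∈ closure (closure Ω)ᶜ) ∧
      ContDiff ℝ ∞ g ∧ HasCompactSupport g ∧
      tsupport g ⊆ Ω ∧ ContDiffOn ℝ ∞ u Ω ∧
      (∃ ψ : ℕ → E 22 → ℝ, (∀ i, ContDiff ℝ ∞ (ψ i) ∧ HasCompactSupport (ψ i) ∧
          tsupport (ψ i) ⊆ Ω) ∧
        (∃ e : ℕ → ℝ, Tendsto e atTop (𝓝 0) ∧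
          ∀ i k, ∫ x, (lap (lap (fun z => ψ i z - ψ k z)) x) ^ 2 ≤ e i + e k) ∧
        ∀ L, IsCompact L → L ⊆ Ω → Tendsto (fun i => ∫ x in L, |ψ i x - u x|) atTop (𝓝 0)) ∧
      (∀ ψ, ContDiff ℝ ∞ ψ → HasCompactSupport ψ → tsupport ψ ⊆ Ω →
        ∫ x in Ω, u x * lap4 ψ x = ∫ x in Ω, g x * ψ x) ∧
      ∃ x ∈ Ω, C * ∫ y, ((‖x - y‖ ^ 2) ^ 7)⁻¹ * |g y| < |u x| := by
  obtain ⟨c0, hc0, hfund⟩ := fund
  have hgc : HasCompactSupport (fun x => V x * Φc x) := hΦc.mul_left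
  obtain ⟨N, hNs, hNv, hN4, R0, hR01, hR0g, hNd⟩ := newton c0 hc0 hfund _ hg hgc
  obtain ⟨R1, hR1⟩ : ∃ R1 : ℝ, ∀ x, Φc x ≠ 0 → ‖x‖ ≤ R1 := by
    obtain ⟨R, hR⟩ := hΦc.isCompact.isBounded.subset_closedBall (0 : E 22)
    exact ⟨R, fun x hx => by simpa using hR (subset_tsupport Φc hx)⟩
  obtain ⟨Mf, hMf⟩ : ∃ Mf : ℝ, ∀ x, |Φc x| ≤ Mf := by
    obtain ⟨C, hC⟩ := hΦc.exists_bound_of_continuous hΦ.continuous
    exact ⟨C, hC⟩
  obtain ⟨Rf, hRfdef⟩ : ∃ Rf : ℝ, Rf = max R0 (|R1| + 1) := ⟨_, rfl⟩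
  have hRf0 : R0 ≤ Rf := by rw [hRfdef]; exact le_max_left _ _
  have hRf1 : |R1| + 1 ≤ Rf := by rw [hRfdef]; exact le_max_right _ _
  have D : Dat c0 Φc V N (max Vm 0) Mf Rf := by
    refine ⟨hc0, hV0, fun x hx => (hVm x hx).trans (le_max_left _ _), le_max_right _ _, hΦ, hΦc,
      hMf, ?_, hR01.trans hRf0, hg, hNs, hNv, hN4, ?_⟩
    · intro x hx
      by_contra h
      have h1 := hR1 x h
      have h2 := le_abs_self R1
      linarith
    · intro k
      obtain ⟨C, hC, h⟩ := hNd k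
      exact ⟨C, hC, fun x hx => h x (by linarith)⟩
  obtain ⟨hFc, hF0, CF, hCF, RF, hRF1, hfRF, hFfar⟩ := F_props hf hfc hf0 C hC
  obtain ⟨F, hFdef⟩ : ∃ F : E 22 → ℝ, F = fun x => C * ∫ y, ((‖x - y‖ ^ 2) ^ 7)⁻¹ * f y :=
    ⟨_, rfl⟩
  rw [← hFdef] at hFc
  have hF0' : ∀ x, 0 ≤ F x := by rw [hFdef]; exact hF0
  have hFfar' : ∀ x, RF ≤ ‖x‖ → F x ≤ CF * ((‖x‖ ^ 2) ^ 7)⁻¹ := by rw [hFdef]; exact hFfar
  obtain ⟨FM, hFM0, hFM⟩ : ∃ FM > 0, ∀ x, ‖x‖ ≤ Rf + 2 → F x ≤ FM := by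
    obtain ⟨M, hM⟩ := (isCompact_closedBall (0 : E 22) (Rf + 2)).exists_bound_of_continuousOn
      hFc.continuousOn
    refine ⟨|M| + 1, by positivity, fun x hx => ?_⟩
    have h1 := hM x (by simpa using hx)
    rw [Real.norm_eq_abs] at h1
    have h2 := le_abs_self (F x)
    have h3 := le_abs_self M
    linarith
  -- cut-offs
  obtain ⟨χ, hχ, hχc, hχ1, hχ0⟩ : ∃ χ : E 22 → ℝ, ContDiff ℝ ∞ χ ∧ HasCompactSupport χ ∧
      (∀ z, ‖z‖ ≤ 3 / 2 → χ z = 1) ∧ ∀ z, 2 ≤ ‖z‖ → χ z = 0 := by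
    let b : ContDiffBump (0 : E 22) := ⟨3 / 2, 2, by norm_num, by norm_num⟩
    exact ⟨b, b.contDiff, b.hasCompactSupport, fun z hz => b.one_of_mem_closedBall (by simpa using hz),
      fun z hz => b.zero_of_le_dist (by simpa using hz)⟩
  obtain ⟨θ, hθ, hθc, hθ1, hθ0⟩ : ∃ χ : E 22 → ℝ, ContDiff ℝ ∞ χ ∧ HasCompactSupport χ ∧
      (∀ z, ‖z‖ ≤ 1 → χ z = 1) ∧ ∀ z, 2 ≤ ‖z‖ → χ z = 0 := by
    let b : ContDiffBump (0 : E 22) := ⟨1, 2, by norm_num, by norm_num⟩
    exact ⟨b, b.contDiff, b.hasCompactSupport, fun z hz => b.one_of_mem_closedBall (by simpa using hz),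
      fun z hz => b.zero_of_le_dist (by simpa using hz)⟩
  obtain ⟨Cfar, hCfar, ε1, hε1, hfar⟩ := far_est D hθ hθc
  obtain ⟨Cm, hCm0, hCm⟩ := mass2 Rf (by linarith)
  obtain ⟨P, hPdef⟩ : ∃ P : E 22 → ℝ, P = (fun y => Φc y + N y) := ⟨_, rfl⟩
  have hPs : ContDiff ℝ ∞ P := by rw [hPdef]; exact hΦ.add hNs
  have hP4 : ∀ x, lap4 P x = lap4 Φc x + V x * Φc x := by
    intro x
    have h1 := lap4_lin isOpen_univ hΦ.contDiffOn hNs.contDiffOn 1 1 (mem_univ x)
    simp only [one_mul] at h1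
    rw [hPdef, h1]
    congr 1
    exact hN4 x
  obtain ⟨v, hv⟩ : ∃ v : ℝ, v = volume.real (closedBall (0 : E 22) 1) := ⟨_, rfl⟩
  have hv0 : 0 ≤ v := by rw [hv]; positivity
  have hPi : Integrable (fun x => F x * |lap4 P x|) := by
    have h4 := lap4_test hΦ hΦc
    have e : (fun x => F x * |lap4 P x|) = fun x => F x * |lap4 Φc x + V x * Φc x| := by
      ext x; rw [hP4 x]
    rw [e]
    apply Continuous.integrable_of_hasCompactSupport
    · exact hFc.mul (h4.1.continuous.add hg.continuous).abs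
    · apply HasCompactSupport.mul_left
      exact (h4.2.add hgc).norm
  have eFP : (fun x => F x * |lap4 P x|) = fun x =>
      (C * ∫ y, ((‖x - y‖ ^ 2) ^ 7)⁻¹ * f y) * |lap4 Φc x + V x * Φc x| := by
    ext x; rw [hP4 x, hFdef]
  rw [← eFP] at hlt
  obtain ⟨δ, hδdef⟩ : ∃ δ : ℝ, δ = (|∫ x, f x * Φc x| - ∫ x, F x * |lap4 P x|) / 2 := ⟨_, rfl⟩
  have hδ : 0 < δ := by rw [hδdef]; linarith
  have hgoal : ∃ (Ω : Set (E 22)) (Ψ : E 22 → ℝ) (L0 L1 : ℝ), L0 ≤ L1 ∧
      (∀ R > 0, ∀ z, z ∉ Ω ∩ ball 0 R → z ∈ closure (closure (Ω ∩ ball 0 R))ᶜ) ∧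
      (∀ x, L0 ≤ ‖x‖ → Ψ x = 0) ∧ IsOpen Ω ∧ tsupport f ⊆ Ω ∧
      ContDiffOn ℝ ∞ Ψ Ω ∧ (ContDiff ℝ ∞ (Ω.indicator (lap4 Ψ)) ∧
        HasCompactSupport (Ω.indicator (lap4 Ψ)) ∧ tsupport (Ω.indicator (lap4 Ψ)) ⊆ Ω) ∧
      (∃ ψ : ℕ → E 22 → ℝ, (∀ i, ContDiff ℝ ∞ (ψ i) ∧ HasCompactSupport (ψ i) ∧
          tsupport (ψ i) ⊆ Ω ∩ closedBall 0 L1) ∧
        (∃ e : ℕ → ℝ, Tendsto e atTop (𝓝 0) ∧
          ∀ i k, ∫ x, (lap (lap (fun z => ψ i z - ψ k z)) x) ^ 2 ≤ e i + e k) ∧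
        ∀ L, IsCompact L → L ⊆ Ω → Tendsto (fun i => ∫ x in L, |ψ i x - Ψ x|) atTop (𝓝 0)) ∧
      |∫ x, f x * Φc x| ≤ |∫ x, f x * Ψ x| + δ / 3 ∧
      ∫ x in Ω, F x * |lap4 Ψ x| ≤ (∫ x, F x * |lap4 P x|) + δ / 3 + δ / 3 := by
    -- choice of L
    obtain ⟨L, hL1, hL2, hL3⟩ : ∃ L : ℝ, 2 * Rf + 4 ≤ L ∧ RF ≤ L ∧
        v * 2 ^ 22 * CF * Cfar ≤ (δ / 3) * L := by
      refine ⟨max (2 * Rf + 4) (max RF (v * 2 ^ 22 * CF * Cfar / (δ / 3))), le_max_left _ _,
        (le_max_left _ _).trans (le_max_right _ _), ?_⟩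
      rw [← div_le_iff₀' (by positivity)]
      exact (le_max_right _ _).trans (le_max_right _ _)
    have hRfpos : 1 ≤ Rf := hR01.trans hRf0
    have hL0 : 1 ≤ L := by linarith
    -- choice of η
    have hIf : 0 ≤ ∫ x, f x := integral_nonneg hf0
    obtain ⟨η, hη, hη1, hη2⟩ : ∃ η > 0, v * 2 ^ 22 * FM * (max Vm 0 / (120 * c0)) * Cm * η ≤ δ / 3 ∧
        η * (∫ x, f x) ≤ δ / 3 := by
      have hm : 0 ≤ max Vm 0 := le_max_right _ _
      have hB : 0 ≤ v * 2 ^ 22 * FM * (max Vm 0 / (120 * c0)) * Cm := by positivity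
      obtain ⟨B, hBd⟩ : ∃ B, B = v * 2 ^ 22 * FM * (max Vm 0 / (120 * c0)) * Cm := ⟨_, rfl⟩
      rw [← hBd] at hB ⊢
      obtain ⟨I, hI⟩ : ∃ I, I = ∫ x, f x := ⟨_, rfl⟩
      rw [← hI] at hIf ⊢
      refine ⟨(δ / 3) / (B + I + 1), by positivity, ?_, ?_⟩
      · rw [mul_div_assoc', div_le_iff₀ (by positivity)]
        nlinarith
      · rw [div_mul_eq_mul_div, div_le_iff₀ (by positivity)]
        nlinarith
    obtain ⟨ε2, hε2, hnear⟩ := near_est D hχ hχc η hη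
    obtain ⟨ε3, hε3, hpot⟩ := pot_approx D η hη
    obtain ⟨ε4, hε4, hsm⟩ := small_eps c0 (max Vm 0) (1 / 8) (by norm_num)
    obtain ⟨ε, hεdef⟩ : ∃ ε : ℝ, ε = (min (min ε1 ε2) (min (min ε3 ε4) (min 1 τ))) / 2 := ⟨_, rfl⟩
    have hmin : 0 < min (min ε1 ε2) (min (min ε3 ε4) (min 1 τ)) := by positivity
    have hε : 0 < ε := by rw [hεdef]; positivity
    have hεlt : ε < min (min ε1 ε2) (min (min ε3 ε4) (min 1 τ)) := by
      rw [hεdef]; linarith
    obtain ⟨⟨l1, l2⟩, ⟨l3, l4⟩, l5, l6⟩ : (ε < ε1 ∧ ε < ε2) ∧ (ε < ε3 ∧ ε < ε4) ∧ ε < 1 ∧ ε < τ := by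
      simpa [lt_min_iff] using hεlt
    -- the index set
    obtain ⟨J, hJ⟩ : ∃ J, IsJ Φc V ε J := by
      have hfin : {k : Fin 22 → ℤ | V (pt ε k) * Φc (pt ε k) ≠ 0}.Finite := by
        apply (pt_finite ε Rf hε).subset
        intro k hk
        by_contra h
        apply hk
        rw [D.ΦR _ (le_of_lt (not_le.1 h)), mul_zero]
      exact ⟨hfin.toFinset, fun k => by simp⟩
    have hall : ∀ l ∈ J, 0 < rad c0 V ε l ∧ rad c0 V ε l ≤ ε / 8 := fun l hl =>
      ⟨rad_pos hc0 hε (D.memJ hJ hl).1, (rad_le hc0 D.V0 hε (D.memJ hJ hl).2.1 (by norm_num)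
        (hsm ε hε l4)).trans (by linarith)⟩
    obtain ⟨Ω, hΩ⟩ : ∃ Ω : Set (E 22), Ω = {x | ∀ j ∈ J, rad c0 V ε j < ‖x - pt ε j‖} := ⟨_, rfl⟩
    have hΩo : IsOpen Ω := by
      have : Ω = ⋂ j ∈ J, {x : E 22 | rad c0 V ε j < ‖x - pt ε j‖} := by ext x; simp [hΩ]
      rw [this]
      exact isOpen_biInter_finset fun j _ =>
        isOpen_lt continuous_const (continuous_id.sub continuous_const).norm
    have hts : ∀ x ∈ tsupport f, ∀ j ∈ J, τ ≤ ‖x - pt ε j‖ := by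
      intro x hx j hj
      have hcl : IsClosed {x : E 22 | τ ≤ ‖x - pt ε j‖} :=
        isClosed_le continuous_const (continuous_id.sub continuous_const).norm
      have : tsupport f ⊆ {x : E 22 | τ ≤ ‖x - pt ε j‖} := by
        apply closure_minimal _ hcl
        intro y hy
        exact hsep y (pt ε j) hy ((hJ j).1 hj)
      exact this hx
    have hfΩ : tsupport f ⊆ Ω := by
      intro x hx
      rw [hΩ]
      intro j hj
      have h1 := hts x hx j hj
      have h2 := (hall j hj).2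
      linarith
    have hfar' := hfar L (by linarith) ε hε l1 J hJ
    have hnear' := hnear ε hε l2 J hJ
    have hpot' := hpot ε hε l3 J hJ
    rw [← hPdef] at hfar' hnear'
    obtain ⟨κ, hκ⟩ : ∃ κ : (Fin 22 → ℤ) → ℝ, κ = (fun k => Φc (pt ε k)) := ⟨_, rfl⟩
    rw [← hκ] at hfar' hnear'
    have hdisj : ∀ i ∈ J, ∀ j ∈ J, i ≠ j →
        2 * rad c0 V ε i + 2 * rad c0 V ε j ≤ ‖pt ε i - pt ε j‖ := by
      intro i hi j hj hij
      have h1 := (hall i hi).2
      have h2 := (hall j hj).2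
      have h3 := pt_dist hε hij
      linarith
    have hradpos : ∀ j ∈ J, 0 < rad c0 V ε j := fun j hj => (hall j hj).1
    obtain ⟨Ψ, hΨs, hΨL, hΨh, hΨW, hass⟩ := assembly2 J (pt ε) (rad c0 V ε) κ hradpos
      hdisj hΩ hΩo (F := F) (P := P)
      (θ := fun y => θ (L⁻¹ • (y - 0))) (χ := χ) (L := L) hF0' hPs
      (hθ.comp ((contDiff_id.sub contDiff_const).const_smul L⁻¹))
      (by
        intro x hx
        apply hθ1
        rw [sub_zero, norm_smul, Real.norm_of_nonneg (by positivity), inv_mul_le_iff₀ (by linarith)]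
        linarith)
      (by
        intro x hx
        apply hθ0
        rw [sub_zero, norm_smul, Real.norm_of_nonneg (by positivity), le_inv_mul_iff₀ (by linarith)]
        linarith)
      hχ hχ1 hχ0 (by linarith)
      (by
        intro j hj
        have h1 := (D.memJ hJ hj).2.2
        have h2 := (hall j hj).2
        linarith) hPi (fun j => FM * (η * (rad c0 V ε j ^ 8)⁻¹))
      ((CF * (L ^ 14)⁻¹) * (Cfar * (L ^ 14)⁻¹)) (by positivity)
      (by
        intro j hj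
        have h1 := (hall j hj).1
        positivity)
      (by
        intro j hj x hx1 hx2
        have h1 := hnear' j hj x hx1 hx2
        have h2 : ‖x‖ ≤ Rf + 2 := by
          have h3 := norm_sub_norm_le x (pt ε j)
          have h4 := (D.memJ hJ hj).2.2
          have h5 := (hall j hj).2
          linarith
        exact mul_le_mul (hFM x h2) h1 (abs_nonneg _) hFM0.le)
      (by
        intro x hx1 hx2
        have h1 := hfar' x hx1
        have h2 : F x ≤ CF * (L ^ 14)⁻¹ := by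
          refine (hFfar' x (hL2.trans hx1)).trans ?_
          rw [← pow_mul]
          gcongr
        exact mul_le_mul h2 h1 (abs_nonneg _) (by positivity))
    have hΩO : Ω ⊆ {x : E 22 | ∀ j ∈ J, x ≠ pt ε j} := by
      intro x hx j hj h
      rw [hΩ] at hx
      have := hx j hj
      rw [h, sub_self, norm_zero] at this
      linarith [hradpos j hj]
    obtain ⟨L1, hL01, hlayB⟩ :=
      layersB J (pt ε) (rad c0 V ε) κ hradpos hdisj hΩ hΩo hΨs hΨL hΨh
    have hreg : ∀ R > 0, ∀ z, z ∉ Ω ∩ ball 0 R → z ∈ closure (closure (Ω ∩ ball 0 R))ᶜ := by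
      rw [hΩ]
      exact fun R hR z hz => reg_holes J (pt ε) (rad c0 V ε) hradpos hR z hz
    refine ⟨Ω, Ψ, _, L1, hL01, hreg, hΨL, hΩo, hfΩ, hΨs.mono hΩO,
      rhs_test J (pt ε) (rad c0 V ε) κ hradpos hΩ hΩo hΨs hΨL hΨh,
      hlayB, ?_, ?_⟩
    rotate_left
    · -- the error terms
      have hE1 : ∑ j ∈ J, volume.real (closedBall (pt ε j) (2 * rad c0 V ε j)) *
          (FM * (η * (rad c0 V ε j ^ 8)⁻¹)) ≤ δ / 3 := by
        have h1 : ∀ j ∈ J, volume.real (closedBall (pt ε j) (2 * rad c0 V ε j)) *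
            (FM * (η * (rad c0 V ε j ^ 8)⁻¹)) ≤
            (v * 2 ^ 22 * FM * (max Vm 0 / (120 * c0)) * η) * ε ^ 22 := by
          intro j hj
          have h2 := (hall j hj).1
          have h3 := rad_pow hc0 D.V0 hε j
          have h4 := (D.memJ hJ hj).2.1
          rw [vol_ball _ (by positivity), ← hv]
          obtain ⟨a, hadef⟩ : ∃ a, a = rad c0 V ε j := ⟨_, rfl⟩
          rw [← hadef] at h2 h3 ⊢
          calc (2 * a) ^ 22 * v * (FM * (η * (a ^ 8)⁻¹))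
              = (v * 2 ^ 22 * FM * η) * a ^ 14 := by
                field_simp
            _ = (v * 2 ^ 22 * FM * η) * (V (pt ε j) * ε ^ 22 / (120 * c0)) := by rw [h3]
            _ ≤ (v * 2 ^ 22 * FM * η) * (max Vm 0 * ε ^ 22 / (120 * c0)) := by gcongr
            _ = _ := by ring
        refine (Finset.sum_le_sum h1).trans ?_
        rw [← Finset.mul_sum]
        have h5 := hCm ε hε l5.le J (fun k hk => (D.memJ hJ hk).2.2)
        have hm : 0 ≤ max Vm 0 := le_max_right _ _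
        calc (v * 2 ^ 22 * FM * (max Vm 0 / (120 * c0)) * η) * ∑ _j ∈ J, ε ^ 22
            ≤ (v * 2 ^ 22 * FM * (max Vm 0 / (120 * c0)) * η) * Cm := by gcongr
          _ = v * 2 ^ 22 * FM * (max Vm 0 / (120 * c0)) * Cm * η := by ring
          _ ≤ _ := hη1
      have hE2 : volume.real (closedBall (0 : E 22) (2 * L)) *
          ((CF * (L ^ 14)⁻¹) * (Cfar * (L ^ 14)⁻¹)) ≤ δ / 3 := by
        rw [vol_ball _ (by positivity), ← hv]
        have h1 : (2 * L) ^ 22 * v * ((CF * (L ^ 14)⁻¹) * (Cfar * (L ^ 14)⁻¹)) =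
            (v * 2 ^ 22 * CF * Cfar) * (L ^ 6)⁻¹ := by
          field_simp
        rw [h1]
        calc (v * 2 ^ 22 * CF * Cfar) * (L ^ 6)⁻¹ ≤ ((δ / 3) * L) * (L ^ 6)⁻¹ := by gcongr
          _ = (δ / 3) * (L ^ 5)⁻¹ := by field_simp
          _ ≤ (δ / 3) * 1 := by
              gcongr
              exact inv_le_one_of_one_le₀ (one_le_pow₀ hL0)
          _ = _ := mul_one _
      linarith
    -- the left-hand side
    have hfil : ∀ x, f x ≠ 0 → J.filter (fun l => ε / 2 ≤ ‖x - pt ε l‖) = J := by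
      intro x hx
      rw [Finset.filter_eq_self]
      intro l hl
      have h1 := hts x (subset_tsupport f hx) l hl
      linarith
    have hWd : ∀ x, |f x * Ψ x - f x * Φc x| ≤ η * f x := by
      intro x
      by_cases hx : f x = 0
      · rw [hx]; simp
      · have h1 := hpot' x
        rw [hfil x hx] at h1
        rw [← mul_sub, abs_mul, abs_of_nonneg (hf0 x), mul_comm η]
        apply mul_le_mul_of_nonneg_left _ (hf0 x)
        have e0 := hΨW x ((hfRF x hx).trans hL2) (by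
          intro j hj
          have h1 := hts x (subset_tsupport f hx) j hj
          have h2 := (hall j hj).2
          linarith)
        have e : Ψ x - Φc x =
            N x - ∑ l ∈ J, Φc (pt ε l) * Hh (rad c0 V ε l) (pt ε l) x := by
          rw [e0]
          unfold Wk
          rw [hPdef, hκ]
          simp only
          ring
        rw [e]
        exact h1
    have hfWc : Continuous (fun x => f x * Ψ x) := by
      apply ContinuousOn.continuous_of_tsupport_subset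
        (hf.continuous.continuousOn.mul hΨs.continuousOn) (avoid_open J (pt ε))
      refine (tsupport_mul_subset_left).trans ?_
      intro x hx j hj h
      have h1 := hts x hx j hj
      rw [h, sub_self, norm_zero] at h1
      linarith
    have hi1 : Integrable (fun x => f x * Ψ x) :=
      hfWc.integrable_of_hasCompactSupport hfc.mul_right
    have hi2 : Integrable (fun x => f x * Φc x) :=
      (hf.continuous.mul hΦ.continuous).integrable_of_hasCompactSupport hfc.mul_right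
    have hi3 : Integrable f := hf.continuous.integrable_of_hasCompactSupport hfc
    have hE3 : |(∫ x, f x * Ψ x) - ∫ x, f x * Φc x| ≤ δ / 3 := by
      rw [← integral_sub hi1 hi2, ← Real.norm_eq_abs]
      refine (norm_integral_le_integral_norm _).trans (le_trans ?_ hη2)
      rw [← integral_const_mul]
      apply integral_mono (hi1.sub hi2).norm (hi3.const_mul η)
      intro x
      exact hWd x
    rw [abs_sub_comm] at hE3
    have h7 : |∫ x, f x * Φc x| ≤ |(∫ x, f x * Φc x) - ∫ x, f x * Ψ x| +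
        |∫ x, f x * Ψ x| := by
      have := abs_add_le ((∫ x, f x * Φc x) - ∫ x, f x * Ψ x) (∫ x, f x * Ψ x)
      rwa [sub_add_cancel] at this
    linarith
  obtain ⟨Ω, Ψ, L0, L1, hL01, hreg, hΨ0, hΩo, hfΩ, hΨs, ⟨hg1, hg2, hg3⟩, hlay, hA1, hA2⟩ := hgoal
  -- restriction to a large ball
  obtain ⟨R2, hR2⟩ : ∃ R2 : ℝ, ∀ x ∈ tsupport (Ω.indicator (lap4 Ψ)), ‖x‖ ≤ R2 := by
    obtain ⟨R, hR⟩ := hg2.isCompact.isBounded.subset_closedBall (0 : E 22)
    exact ⟨R, fun x hx => by simpa using hR hx⟩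
  obtain ⟨R3, hR3⟩ : ∃ R3 : ℝ, ∀ x ∈ tsupport f, ‖x‖ ≤ R3 := by
    obtain ⟨R, hR⟩ := hfc.isCompact.isBounded.subset_closedBall (0 : E 22)
    exact ⟨R, fun x hx => by simpa using hR hx⟩
  obtain ⟨R, hRdef⟩ : ∃ R : ℝ, R = |L1| + |R2| + |R3| + 1 := ⟨_, rfl⟩
  have hRL : L1 < R := by
    have := le_abs_self L1
    have := abs_nonneg R2
    have := abs_nonneg R3
    linarith
  have hRR2 : R2 < R := by
    have := le_abs_self R2
    have := abs_nonneg L1
    have := abs_nonneg R3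
    linarith
  have hRR3 : R3 < R := by
    have := le_abs_self R3
    have := abs_nonneg L1
    have := abs_nonneg R2
    linarith
  have hRpos : 0 < R := by
    have := abs_nonneg L1
    have := abs_nonneg R2
    have := abs_nonneg R3
    linarith
  have hBo : IsOpen (Ω ∩ ball 0 R) := hΩo.inter isOpen_ball
  have hg3' : tsupport (Ω.indicator (lap4 Ψ)) ⊆ Ω ∩ ball 0 R := by
    intro x hx
    exact ⟨hg3 hx, by simpa using (hR2 x hx).trans_lt hRR2⟩
  have hfΩ' : tsupport f ⊆ Ω ∩ ball 0 R := by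
    intro x hx
    exact ⟨hfΩ hx, by simpa using (hR3 x hx).trans_lt hRR3⟩
  obtain ⟨ψ, hψ, hψe, hψL⟩ := hlay
  refine ⟨R, Ω ∩ ball 0 R, Ω.indicator (lap4 Ψ), Ψ, hRpos, hBo, inter_subset_right,
    hreg R hRpos, hg1, hg2, hg3',
    hΨs.mono inter_subset_left, ⟨ψ, fun i => ⟨(hψ i).1, (hψ i).2.1, (hψ i).2.2.trans ?_⟩, hψe,
      fun L hL hLΩ => hψL L hL (hLΩ.trans inter_subset_left)⟩, ?_, ?_⟩
  · intro x hx
    refine ⟨hx.1, ?_⟩
    have h1 := hx.2
    rw [mem_closedBall, dist_zero_right] at h1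
    rw [mem_ball, dist_zero_right]
    exact h1.trans_lt hRL
  · intro ψ h1 h2 h3
    have h4 := weak_of_smooth hΩo hΨs h1 h2 (h3.trans inter_subset_left)
    have h5 : ∀ F : E 22 → ℝ, (∀ x, x ∉ ball (0 : E 22) R → F x = 0) →
        ∫ x in Ω ∩ ball 0 R, F x = ∫ x in Ω, F x := by
      intro F hF
      rw [← setIntegral_indicator isOpen_ball.measurableSet]
      congr 1
      ext x
      by_cases hx : x ∈ ball (0 : E 22) R
      · rw [indicator_of_mem hx]
      · rw [indicator_of_notMem hx, hF x hx]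
    have hψ0 : ∀ x, x ∉ ball (0 : E 22) R → ψ x = 0 := by
      intro x hx
      exact image_eq_zero_of_notMem_tsupport fun h => hx (h3 h).2
    have hψ4 : ∀ x, x ∉ ball (0 : E 22) R → lap4 ψ x = 0 := by
      intro x hx
      have h6 := lap4_test h1 h2
      apply image_eq_zero_of_notMem_tsupport
      intro h
      apply hx
      have h7 : tsupport (lap4 ψ) ⊆ tsupport ψ :=
        (lap_tsupport _).trans ((lap_tsupport _).trans ((lap_tsupport _).trans (lap_tsupport _)))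
      exact (h3 (h7 h)).2
    rw [h5 _ fun x hx => by rw [hψ4 x hx, mul_zero], h5 _ fun x hx => by rw [hψ0 x hx, mul_zero]]
    exact h4
  by_contra hcon
  push Not at hcon
  obtain ⟨g, hgdef⟩ : ∃ g, g = Ω.indicator (lap4 Ψ) := ⟨_, rfl⟩
  rw [← hgdef] at hg1 hg2 hg3 hcon
  have hga : Continuous (fun x => |g x|) := hg1.continuous.abs
  have hgac : HasCompactSupport (fun x => |g x|) := hg2.abs
  have hsw := swap hf.continuous hfc hga hgac
  have hcc := conv_cont hga hgac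
  have hbig : Integrable (fun x => f x * (C * ∫ y, ((‖x - y‖ ^ 2) ^ 7)⁻¹ * |g y|)) :=
    (hf.continuous.mul (continuous_const.mul hcc)).integrable_of_hasCompactSupport hfc.mul_right
  have h1 : |∫ x, f x * Ψ x| ≤ ∫ x, f x * (C * ∫ y, ((‖x - y‖ ^ 2) ^ 7)⁻¹ * |g y|) := by
    rw [← Real.norm_eq_abs]
    refine (norm_integral_le_integral_norm _).trans ?_
    apply integral_mono_of_nonneg
    · exact Eventually.of_forall fun x => norm_nonneg _
    · exact hbig
    · apply Eventually.of_forall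
      intro x
      simp only
      by_cases hx : f x = 0
      · rw [hx]; simp
      · rw [norm_mul, Real.norm_eq_abs, Real.norm_eq_abs, abs_of_nonneg (hf0 x)]
        exact mul_le_mul_of_nonneg_left (hcon x (hfΩ' (subset_tsupport f hx))) (hf0 x)
  have h2 : ∫ x, f x * (C * ∫ y, ((‖x - y‖ ^ 2) ^ 7)⁻¹ * |g y|) = ∫ y, F y * |g y| := by
    have e1 : (fun x => f x * (C * ∫ y, ((‖x - y‖ ^ 2) ^ 7)⁻¹ * |g y|)) =
        fun x => C * (f x * ∫ y, ((‖x - y‖ ^ 2) ^ 7)⁻¹ * |g y|) := by ext x; ring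
    rw [e1, integral_const_mul, hsw, ← integral_const_mul, hFdef]
    congr 1
    ext y
    ring
  have h3 : ∫ y, F y * |g y| = ∫ x in Ω, F x * |lap4 Ψ x| := by
    rw [← setIntegral_eq_integral_of_forall_compl_eq_zero (s := Ω)]
    · apply setIntegral_congr_fun hΩo.measurableSet
      intro x hx
      simp only
      rw [hgdef, indicator_of_mem hx]
    · intro x hx
      rw [hgdef, indicator_of_notMem hx, abs_zero, mul_zero]
  linarith

end Pool.Agent.Y490.GO
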