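import Pool.Agent.Y490.GO.Piece

set_option autoImplicit false

/-! Glueing of pieces along disjoint open sets. -/

namespace Pool.Agent.Y490.GO

open MeasureTheory Filter Topology Set Metric
open scoped ContDiff
open Pool.Agent.Helper676.GF

/-- restriction of a test function to a relatively clopen part of the domain -/
lemma restrict_test {Ω A B : Set (E 22)} (hA : IsOpen A) (hB : IsOpen B) (hAB : Disjoint A B)
    (hΩ : Ω = A ∪ B) {θ : E 22 → ℝ} (h1 : ContDiff ℝ ∞ θ) (h2 : HasCompactSupport θ)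
    (h3 : tsupport θ ⊆ Ω) :
    ContDiff ℝ ∞ (A.indicator θ) ∧ HasCompactSupport (A.indicator θ) ∧
      tsupport (A.indicator θ) ⊆ A ∧ ∀ x ∈ A, lap4 (A.indicator θ) x = lap4 θ x := by
  have hsub : tsupport θ \ B ⊆ A := by
    rintro x ⟨hx, hxB⟩
    have := h3 hx
    rw [hΩ] at this
    exact this.resolve_right hxB
  have hK : IsCompact (tsupport θ \ B) := h2.isCompact.diff hB
  have hts : tsupport (A.indicator θ) ⊆ tsupport θ \ B := by
    apply closure_minimal _ hK.isClosed
    intro x hx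
    have hxA : x ∈ A := by
      by_contra h
      exact hx (indicator_of_notMem h _)
    have hxθ : θ x ≠ 0 := by
      intro h
      apply hx
      rw [indicator_of_mem hxA, h]
    exact ⟨subset_tsupport θ hxθ, fun hxB => disjoint_left.1 hAB hxA hxB⟩
  refine ⟨?_, ?_, hts.trans hsub, ?_⟩
  · rw [contDiff_iff_contDiffAt]
    intro x
    by_cases hx : x ∈ A
    · refine h1.contDiffAt.congr_of_eventuallyEq ?_
      filter_upwards [hA.mem_nhds hx] with y hy
      exact indicator_of_mem hy _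
    · have hx' : x ∈ (tsupport (A.indicator θ))ᶜ := fun h => hx (hsub (hts h))
      refine (contDiffAt_const (c := (0 : ℝ))).congr_of_eventuallyEq ?_
      filter_upwards [(isClosed_tsupport _).isOpen_compl.mem_nhds hx'] with y hy
      exact image_eq_zero_of_notMem_tsupport hy
  · exact hK.of_isClosed_subset (isClosed_tsupport _) hts
  · intro x hx
    apply lap4_congr
    filter_upwards [hA.mem_nhds hx] with y hy
    exact indicator_of_mem hy _

lemma integral_union_indicator {A B : Set (E 22)} (hA : IsOpen A) (F : E 22 → ℝ)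
    (hF : ∀ x, x ∉ A → F x = 0) : ∫ x in A ∪ B, F x = ∫ x in A, F x := by
  have h1 : F = A.indicator F := by
    ext x
    by_cases hx : x ∈ A
    · rw [indicator_of_mem hx]
    · rw [indicator_of_notMem hx, hF x hx]
  rw [h1, setIntegral_indicator hA.measurableSet, setIntegral_indicator hA.measurableSet]
  congr 2
  ext x
  simp only [mem_inter_iff, mem_union, and_self]
  constructor
  · exact fun h => h.2
  · exact fun h => ⟨Or.inl h, h⟩

/-- a piece remains a piece after adding a disjoint open set to the domain -/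
theorem Piece.add {C : ℝ} {A B : Set (E 22)} {f u : E 22 → ℝ} (h : Piece C A f u)
    (hB : IsOpen B) (hAB : Disjoint A B) : Piece C (A ∪ B) f (A.indicator u) := by
  have hA := h.isOpen
  refine ⟨hA.union hB, h.fs, h.fc, h.fsupp.trans subset_union_left, ?_, ?_, ?_, ?_⟩
  · intro x hx
    apply ContDiffAt.contDiffWithinAt
    rcases hx with hx | hx
    · refine (h.us.contDiffAt (hA.mem_nhds hx)).congr_of_eventuallyEq ?_
      filter_upwards [hA.mem_nhds hx] with y hy
      exact indicator_of_mem hy _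
    · refine (contDiffAt_const (c := (0 : ℝ))).congr_of_eventuallyEq ?_
      filter_upwards [hB.mem_nhds hx] with y hy
      exact indicator_of_notMem (fun hyA => disjoint_left.1 hAB hyA hy) _
  · obtain ⟨ψ, hψ, hψe, hψL⟩ := h.lim
    refine ⟨ψ, fun i => ⟨(hψ i).1, (hψ i).2.1, (hψ i).2.2.trans subset_union_left⟩, hψe, ?_⟩
    intro L hL hLΩ
    have hLA : L \ B ⊆ A := by
      rintro x ⟨hx, hxB⟩
      exact (hLΩ hx).resolve_right hxB
    have hLc : IsCompact (L \ B) := hL.diff hB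
    have e : ∀ i, ∫ x in L, |ψ i x - A.indicator u x| = ∫ x in L \ B, |ψ i x - u x| := by
      intro i
      have hz : ∀ x, x ∉ A → |ψ i x - A.indicator u x| = 0 := by
        intro x hx
        rw [indicator_of_notMem hx, sub_zero,
          image_eq_zero_of_notMem_tsupport (fun h => hx ((hψ i).2.2 h)), abs_zero]
      have h1 : ∫ x in L, |ψ i x - A.indicator u x| = ∫ x in L \ B, |ψ i x - A.indicator u x| := by
        rw [← integral_indicator hL.measurableSet, ← integral_indicator hLc.measurableSet]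
        congr 1
        ext x
        by_cases hx : x ∈ L
        · by_cases hxB : x ∈ B
          · have hn : x ∉ L \ B := fun h => h.2 hxB
            rw [indicator_of_mem hx, indicator_of_notMem hn]
            exact hz x (fun hxA => disjoint_left.1 hAB hxA hxB)
          · have hm : x ∈ L \ B := ⟨hx, hxB⟩
            rw [indicator_of_mem hx, indicator_of_mem hm]
        · have hn : x ∉ L \ B := fun h => hx h.1
          rw [indicator_of_notMem hx, indicator_of_notMem hn]
      rw [h1]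
      apply setIntegral_congr_fun hLc.measurableSet
      intro x hx
      simp only
      rw [indicator_of_mem (hLA hx)]
    simp only [e]
    exact hψL _ hLc hLA
  · intro θ h1 h2 h3
    obtain ⟨g1, g2, g3, g4⟩ := restrict_test hA hB hAB rfl h1 h2 h3
    have h4 := h.weak _ g1 g2 g3
    have h5 : ∫ x in A ∪ B, A.indicator u x * lap4 θ x = ∫ x in A, A.indicator u x * lap4 θ x :=
      integral_union_indicator hA _ (fun x hx => by rw [indicator_of_notMem hx, zero_mul])
    have h6 : ∫ x in A ∪ B, f x * θ x = ∫ x in A, f x * θ x :=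
      integral_union_indicator hA _ (fun x hx => by
        rw [image_eq_zero_of_notMem_tsupport (fun h' => hx (h.fsupp h')), zero_mul])
    rw [h5, h6]
    have h7 : ∫ x in A, A.indicator u x * lap4 θ x =
        ∫ x in A, u x * lap4 (A.indicator θ) x := by
      apply setIntegral_congr_fun hA.measurableSet
      intro x hx
      simp only
      rw [indicator_of_mem hx, g4 x hx]
    have h8 : ∫ x in A, f x * θ x = ∫ x in A, f x * A.indicator θ x := by
      apply setIntegral_congr_fun hA.measurableSet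
      intro x hx
      simp only
      rw [indicator_of_mem hx]
    rw [h7, h8, h4]
  · obtain ⟨x, hx, hlt⟩ := h.pt
    refine ⟨x, Or.inl hx, ?_⟩
    rwa [indicator_of_mem hx]

/-- one domain for all constants, inside any non-empty open set -/
theorem one_domain (hP : ∀ C : ℝ, 0 < C → ∃ R > 0, ∃ Ω f u, Piece C Ω f u ∧ Ω ⊆ ball 0 R)
    {U : Set (E 22)} (hU : IsOpen U) (hne : U.Nonempty) :
    ∃ Ω ⊆ U, IsOpen Ω ∧ ∀ C : ℝ, 0 < C → ∃ f u, Piece C Ω f u := by
  obtain ⟨q, hq⟩ := hne
  obtain ⟨ρ, hρ, hρU⟩ := Metric.isOpen_iff.1 hU q hq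
  have hx0 : ‖(EuclideanSpace.single 0 1 : E 22)‖ = 1 := by simp
  obtain ⟨w, hw⟩ : ∃ w : E 22, w = EuclideanSpace.single 0 1 := ⟨_, rfl⟩
  rw [← hw] at hx0
  obtain ⟨p, hp⟩ : ∃ p : ℕ → E 22, p = fun j => q + (ρ * (1 / 2) ^ (j + 1)) • w := ⟨_, rfl⟩
  obtain ⟨r, hr⟩ : ∃ r : ℕ → ℝ, r = fun j => ρ * (1 / 2) ^ (j + 3) := ⟨_, rfl⟩
  have hr0 : ∀ j, 0 < r j := by intro j; rw [hr]; positivity
  have hball : ∀ j, ball (p j) (r j) ⊆ U := by
    intro j
    refine (ball_subset_ball' ?_).trans hρU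
    rw [hp, hr, dist_eq_norm]
    simp only [add_sub_cancel_left]
    rw [norm_smul, hx0, mul_one, Real.norm_of_nonneg (by positivity)]
    have h1 : (1 / 2 : ℝ) ^ j ≤ 1 := pow_le_one₀ (by norm_num) (by norm_num)
    have h2 : (1 / 2 : ℝ) ^ (j + 3) = (1 / 8) * (1 / 2) ^ j := by rw [pow_add]; norm_num; ring
    have h3 : (1 / 2 : ℝ) ^ (j + 1) = (1 / 2) * (1 / 2) ^ j := by rw [pow_add]; norm_num; ring
    rw [h2, h3]
    nlinarith
  have hlt : ∀ j k, j < k → Disjoint (ball (p j) (r j)) (ball (p k) (r k)) := by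
    intro j k hjk
    apply ball_disjoint_ball
    rw [hp, hr, dist_eq_norm]
    have e : q + (ρ * (1 / 2) ^ (j + 1)) • w - (q + (ρ * (1 / 2) ^ (k + 1)) • w) =
        (ρ * (1 / 2) ^ (j + 1) - ρ * (1 / 2) ^ (k + 1)) • w := by
      rw [sub_smul]; abel
    simp only
    rw [e, norm_smul, hx0, mul_one, Real.norm_eq_abs]
    obtain ⟨d, rfl⟩ : ∃ d, k = j + 1 + d := ⟨k - (j + 1), by omega⟩
    have h0 : (0 : ℝ) < (1 / 2) ^ j := by positivity
    have h1 : (1 / 2 : ℝ) ^ d ≤ 1 := pow_le_one₀ (by norm_num) (by norm_num)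
    have h1' : (0 : ℝ) < (1 / 2) ^ d := by positivity
    have h2 : (1 / 2 : ℝ) ^ (j + 3) = (1 / 8) * (1 / 2) ^ j := by rw [pow_add]; norm_num; ring
    have h3 : (1 / 2 : ℝ) ^ (j + 1) = (1 / 2) * (1 / 2) ^ j := by rw [pow_add]; norm_num; ring
    have h4 : (1 / 2 : ℝ) ^ (j + 1 + d + 3) = (1 / 16) * ((1 / 2) ^ j * (1 / 2) ^ d) := by
      rw [show j + 1 + d + 3 = j + d + 4 by ring, pow_add, pow_add]; norm_num; ring
    have h5 : (1 / 2 : ℝ) ^ (j + 1 + d + 1) = (1 / 4) * ((1 / 2) ^ j * (1 / 2) ^ d) := by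
      rw [show j + 1 + d + 1 = j + d + 2 by ring, pow_add, pow_add]; norm_num; ring
    rw [h2, h3, h4, h5]
    refine le_trans ?_ (le_abs_self _)
    have h6 : (1 / 2 : ℝ) ^ j * (1 / 2) ^ d ≤ (1 / 2) ^ j := by nlinarith
    nlinarith
  choose R hR0 Ω f u hpc hΩR using hP
  have hC : ∀ j : ℕ, (0 : ℝ) < (j : ℝ) + 1 := fun j => by positivity
  -- scaled pieces
  obtain ⟨a, ha⟩ : ∃ a : ℕ → ℝ, a = fun j : ℕ => r j / R _ (hC j) := ⟨_, rfl⟩
  have ha0 : ∀ j, 0 < a j := by
    intro j; rw [ha]; exact div_pos (hr0 j) (hR0 _ (hC j))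
  obtain ⟨A, hA⟩ : ∃ A : ℕ → Set (E 22), A = fun j : ℕ =>
    (fun x => (a j)⁻¹ • (x - p j)) ⁻¹' (Ω _ (hC j)) := ⟨_, rfl⟩
  have hAp : ∀ j : ℕ, ∃ f' u', Piece ((j : ℝ) + 1) (A j) f' u' := by
    intro j
    rw [hA]
    exact ⟨_, _, (hpc _ (hC j)).scale (ha0 j) (p j)⟩
  have hAb : ∀ j, A j ⊆ ball (p j) (r j) := by
    intro j x hx
    rw [hA] at hx
    have h1 := hΩR _ (hC j) hx
    rw [mem_ball, dist_zero_right, norm_smul,
      Real.norm_of_nonneg (inv_nonneg.2 (ha0 j).le), inv_mul_lt_iff₀ (ha0 j)] at h1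
    rw [mem_ball, dist_eq_norm]
    have h2 : a j * R _ (hC j) = r j := by
      rw [ha]; exact div_mul_cancel₀ _ (hR0 _ (hC j)).ne'
    rwa [h2] at h1
  have hAo : ∀ j, IsOpen (A j) := by
    intro j
    obtain ⟨f', u', h⟩ := hAp j
    exact h.isOpen
  have hAd : ∀ j k, j ≠ k → Disjoint (A j) (A k) := by
    intro j k hjk
    rcases lt_or_gt_of_ne hjk with h | h
    · exact (hlt j k h).mono (hAb j) (hAb k)
    · exact ((hlt k j h).mono (hAb k) (hAb j)).symm
  refine ⟨⋃ j, A j, iUnion_subset fun j => (hAb j).trans (hball j), isOpen_iUnion hAo, ?_⟩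
  intro C hC0
  obtain ⟨j, hj⟩ := exists_nat_ge C
  obtain ⟨f', u', h⟩ := hAp j
  have hB : IsOpen (⋃ k ∈ {k | k ≠ j}, A k) := isOpen_biUnion fun k _ => hAo k
  have hAB : Disjoint (A j) (⋃ k ∈ {k | k ≠ j}, A k) := by
    rw [disjoint_iUnion₂_right]
    intro k hk
    exact hAd j k (Ne.symm hk)
  have e : (⋃ k, A k) = A j ∪ ⋃ k ∈ {k | k ≠ j}, A k := by
    ext x
    simp only [mem_iUnion, mem_union, mem_setOf_eq, exists_prop]
    constructor
    · rintro ⟨k, hk⟩
      by_cases hkj : k = j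
      · left; rwa [hkj] at hk
      · right; exact ⟨k, hkj, hk⟩
    · rintro (h | ⟨k, -, hk⟩)
      · exact ⟨j, h⟩
      · exact ⟨k, hk⟩
  have h2 := h.add hB hAB
  rw [← e] at h2
  refine ⟨f', _, h2.isOpen, h2.fs, h2.fc, h2.fsupp, h2.us, h2.lim, h2.weak, ?_⟩
  obtain ⟨x, hx, hlt'⟩ := h2.pt
  refine ⟨x, hx, lt_of_le_of_lt ?_ hlt'⟩
  apply mul_le_mul_of_nonneg_right
  · linarith
  · exact integral_nonneg fun y => by positivity

end Pool.Agent.Y490.GO
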