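import Pool.Agent.Helper676.GF8
import Pool.Agent.Helper676.GF7

set_option autoImplicit false

/-! Pieces: a domain, a right-hand side and a solution violating the bound with constant `C`;
scaling and translation of pieces. -/

namespace Pool.Agent.Y490.GO

open MeasureTheory Filter Topology Set Metric
open scoped ContDiff
open Pool.Agent.Helper676.GF

/-- the data of the counterexample for the constant `C` -/
structure Piece (C : ℝ) (Ω : Set (E 22)) (f u : E 22 → ℝ) : Prop where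
  isOpen : IsOpen Ω
  fs : ContDiff ℝ ∞ f
  fc : HasCompactSupport f
  fsupp : tsupport f ⊆ Ω
  us : ContDiffOn ℝ ∞ u Ω
  lim : ∃ ψ : ℕ → E 22 → ℝ, (∀ i, ContDiff ℝ ∞ (ψ i) ∧ HasCompactSupport (ψ i) ∧
      tsupport (ψ i) ⊆ Ω) ∧
    (∃ e : ℕ → ℝ, Tendsto e atTop (𝓝 0) ∧
      ∀ i k, ∫ x, (lap (lap (fun z => ψ i z - ψ k z)) x) ^ 2 ≤ e i + e k) ∧
    ∀ L, IsCompact L → L ⊆ Ω → Tendsto (fun i => ∫ x in L, |ψ i x - u x|) atTop (𝓝 0)
  weak : ∀ ψ, ContDiff ℝ ∞ ψ → HasCompactSupport ψ → tsupport ψ ⊆ Ω →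
    ∫ x in Ω, u x * lap4 ψ x = ∫ x in Ω, f x * ψ x
  pt : ∃ x ∈ Ω, C * ∫ y, ((‖x - y‖ ^ 2) ^ 7)⁻¹ * |f y| < |u x|

/-- change of variables -/
lemma cov (F : E 22 → ℝ) {a : ℝ} (ha : 0 < a) (p : E 22) :
    ∫ x, F (a⁻¹ • (x - p)) = a ^ 22 * ∫ z, F z := by
  have h1 := integral_sub_right_eq_self (μ := (volume : Measure (E 22)))
    (fun x => F (a⁻¹ • x)) p
  rw [h1, Measure.integral_comp_inv_smul_of_nonneg volume F ha.le, finrank_euclideanSpace_fin,
    smul_eq_mul]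

lemma covOn (F : E 22 → ℝ) {a : ℝ} (ha : 0 < a) (p : E 22) {S : Set (E 22)}
    (hS : MeasurableSet S) :
    ∫ x in (fun x => a⁻¹ • (x - p)) ⁻¹' S, F (a⁻¹ • (x - p)) = a ^ 22 * ∫ z in S, F z := by
  have hm : Measurable (fun x : E 22 => a⁻¹ • (x - p)) := by fun_prop
  rw [← integral_indicator (hm hS), ← integral_indicator hS, ← cov _ ha p]
  congr 1

lemma lap4_def (u : E 22 → ℝ) : lap4 u = lap (lap (lap (lap u))) := rfl

lemma lap_scale' {u : E 22 → ℝ} (hu : ContDiff ℝ ∞ u) {a : ℝ} (ha : 0 < a) (c : E 22) :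
    lap (fun y => u (a⁻¹ • (y - c))) = fun x => a⁻¹ ^ 2 * lap u (a⁻¹ • (x - c)) := by
  funext x
  exact lap_scale isOpen_univ hu.contDiffOn ha c (mem_univ _)

lemma lap_cmul {u : E 22 → ℝ} (hu : ContDiff ℝ ∞ u) (c : ℝ) :
    lap (fun y => c * u y) = fun x => c * lap u x := by
  funext x
  have h := lap_lin isOpen_univ hu.contDiffOn hu.contDiffOn c 0 (mem_univ x)
  simpa using h

lemma lap_smoothU {u : E 22 → ℝ} (hu : ContDiff ℝ ∞ u) : ContDiff ℝ ∞ (lap u) := by
  rw [← contDiffOn_univ]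
  exact lap_smooth isOpen_univ hu.contDiffOn

lemma lap2_scale' {u : E 22 → ℝ} (hu : ContDiff ℝ ∞ u) {a : ℝ} (ha : 0 < a) (c : E 22) :
    lap (lap (fun y => u (a⁻¹ • (y - c)))) =
      fun x => a⁻¹ ^ 4 * lap (lap u) (a⁻¹ • (x - c)) := by
  rw [lap_scale' hu ha c]
  have h1 : ContDiff ℝ ∞ (fun x : E 22 => lap u (a⁻¹ • (x - c))) :=
    (lap_smoothU hu).comp ((contDiff_id.sub contDiff_const).const_smul a⁻¹)
  rw [lap_cmul h1, lap_scale' (lap_smoothU hu) ha c]
  funext x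
  ring

lemma lap4_scale' {u : E 22 → ℝ} (hu : ContDiff ℝ ∞ u) {a : ℝ} (ha : 0 < a) (c : E 22) :
    lap4 (fun y => u (a⁻¹ • (y - c))) =
      fun x => a⁻¹ ^ 8 * lap4 u (a⁻¹ • (x - c)) := by
  rw [lap4_def, lap2_scale' hu ha c]
  have h0 : ContDiff ℝ ∞ (lap (lap u)) := lap_smoothU (lap_smoothU hu)
  have h1 : ContDiff ℝ ∞ (fun x : E 22 => lap (lap u) (a⁻¹ • (x - c))) :=
    h0.comp ((contDiff_id.sub contDiff_const).const_smul a⁻¹)
  rw [lap_cmul h1, lap_cmul (lap_smoothU h1), lap2_scale' h0 ha c]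
  funext x
  rw [lap4_def]
  ring

/-- pieces can be scaled and translated -/
theorem Piece.scale {C : ℝ} {Ω : Set (E 22)} {f u : E 22 → ℝ} (h : Piece C Ω f u) {a : ℝ}
    (ha : 0 < a) (p : E 22) :
    Piece C ((fun x => a⁻¹ • (x - p)) ⁻¹' Ω) (fun x => f (a⁻¹ • (x - p)))
      (fun x => a ^ 8 * u (a⁻¹ • (x - p))) := by
  obtain ⟨T, hT⟩ : ∃ T : E 22 → E 22, T = fun x => a⁻¹ • (x - p) := ⟨_, rfl⟩
  obtain ⟨S, hS⟩ : ∃ S : E 22 → E 22, S = fun z => a • z + p := ⟨_, rfl⟩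
  have hTc : Continuous T := by rw [hT]; fun_prop
  have hSc : Continuous S := by rw [hS]; fun_prop
  have hTS : ∀ z, T (S z) = z := by
    intro z
    rw [hT, hS]
    simp only [add_sub_cancel_right, smul_smul]
    rw [inv_mul_cancel₀ ha.ne', one_smul]
  have hST : ∀ z, S (T z) = z := by
    intro z
    rw [hT, hS]
    simp only [smul_smul]
    rw [mul_inv_cancel₀ ha.ne', one_smul, sub_add_cancel]
  let H : E 22 ≃ₜ E 22 := ⟨⟨T, S, hST, hTS⟩, hTc, hSc⟩
  have hTd : ContDiff ℝ ∞ T := by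
    rw [hT]; exact (contDiff_id.sub contDiff_const).const_smul a⁻¹
  have hSd : ContDiff ℝ ∞ S := by
    rw [hS]; exact (contDiff_id.const_smul a).add contDiff_const
  have hts : ∀ g : E 22 → ℝ, tsupport (fun x => g (T x)) = T ⁻¹' tsupport g := by
    intro g
    have := tsupport_comp_eq_preimage g H
    exact this
  have hcs : ∀ g : E 22 → ℝ, HasCompactSupport g → HasCompactSupport (fun x => g (T x)) :=
    fun g hg => hg.comp_homeomorph H
  have hcs' : ∀ g : E 22 → ℝ, HasCompactSupport g → HasCompactSupport (fun x => g (S x)) :=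
    fun g hg => hg.comp_homeomorph H.symm
  have hts' : ∀ g : E 22 → ℝ, tsupport (fun x => g (S x)) = S ⁻¹' tsupport g := by
    intro g
    have := tsupport_comp_eq_preimage g H.symm
    exact this
  have hSform : ∀ z, S z = a⁻¹⁻¹ • (z - (-(a⁻¹ • p))) := by
    intro z
    rw [hS, inv_inv]
    simp only [sub_neg_eq_add, smul_add, smul_smul]
    rw [mul_inv_cancel₀ ha.ne', one_smul]
  rw [← hT] 
  have e1 : (fun x => f (a⁻¹ • (x - p))) = fun x => f (T x) := by rw [hT]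
  have e2 : (fun x => a ^ 8 * u (a⁻¹ • (x - p))) = fun x => a ^ 8 * u (T x) := by rw [hT]
  rw [e1, e2]
  refine ⟨h.isOpen.preimage hTc, h.fs.comp hTd, hcs f h.fc, ?_, ?_, ?_, ?_, ?_⟩
  · rw [hts f]
    exact preimage_mono h.fsupp
  · exact contDiffOn_const.mul (h.us.comp hTd.contDiffOn (fun x hx => hx))
  · obtain ⟨ψ, hψ, ⟨e, he, hee⟩, hψL⟩ := h.lim
    refine ⟨fun i x => a ^ 8 * ψ i (T x), ?_, ⟨fun i => a ^ 30 * e i, ?_, ?_⟩, ?_⟩
    · intro i
      refine ⟨contDiff_const.mul ((hψ i).1.comp hTd), (hcs _ (hψ i).2.1).mul_left, ?_⟩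
      refine (closure_mono (fun x hx => ?_ : Function.support (fun x => a ^ 8 * ψ i (T x)) ⊆
        Function.support (fun x => ψ i (T x)))).trans ?_
      · exact right_ne_zero_of_mul hx
      · have := hts (ψ i)
        unfold tsupport at this
        rw [this]
        exact preimage_mono (hψ i).2.2
    · simpa using he.const_mul (a ^ 30)
    · intro i k
      have hd : ContDiff ℝ ∞ (fun z => ψ i z - ψ k z) := (hψ i).1.sub (hψ k).1
      have e3 : (fun z => a ^ 8 * ψ i (T z) - a ^ 8 * ψ k (T z)) =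
          fun z => a ^ 8 * (fun y => (fun z => ψ i z - ψ k z) (a⁻¹ • (y - p))) z := by
        funext z
        rw [hT]
        ring
      have h1 : ContDiff ℝ ∞ (fun y => (fun z => ψ i z - ψ k z) (a⁻¹ • (y - p))) :=
        hd.comp ((contDiff_id.sub contDiff_const).const_smul a⁻¹)
      have e4 : lap (lap (fun z => a ^ 8 * ψ i (T z) - a ^ 8 * ψ k (T z))) =
          fun x => a ^ 4 * lap (lap (fun z => ψ i z - ψ k z)) (a⁻¹ • (x - p)) := by
        rw [e3, lap_cmul h1, lap_cmul (lap_smoothU h1), lap2_scale' hd ha p]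
        funext x
        have : a ^ 8 * (a⁻¹ ^ 4) = a ^ 4 := by field_simp
        rw [← mul_assoc, this]
      simp only [e4]
      have h2 := cov (fun z => (a ^ 4 * lap (lap (fun z => ψ i z - ψ k z)) z) ^ 2) ha p
      rw [h2]
      have e5 : ∀ z, (a ^ 4 * lap (lap (fun z => ψ i z - ψ k z)) z) ^ 2 =
          a ^ 8 * (lap (lap (fun z => ψ i z - ψ k z)) z) ^ 2 := fun z => by ring
      simp only [e5]
      rw [integral_const_mul, ← mul_assoc, ← mul_add, ← pow_add]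
      exact mul_le_mul_of_nonneg_left (hee i k) (by positivity)
    · intro L hL hLΩ
      have hTL : IsCompact (T '' L) := hL.image hTc
      have hTLΩ : T '' L ⊆ Ω := by
        rintro _ ⟨x, hx, rfl⟩
        exact hLΩ hx
      have e6 : L = (fun x => a⁻¹ • (x - p)) ⁻¹' (T '' L) := by
        rw [← hT]
        exact (preimage_image_eq L H.injective).symm
      have e7 : (fun i => ∫ x in L, |a ^ 8 * ψ i (T x) - a ^ 8 * u (T x)|) =
          fun i => a ^ 30 * ∫ x in T '' L, |ψ i x - u x| := by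
        funext i
        have h3 := covOn (fun z => a ^ 8 * |ψ i z - u z|) ha p hTL.measurableSet
        rw [← e6] at h3
        have e8 : (fun x => |a ^ 8 * ψ i (T x) - a ^ 8 * u (T x)|) =
            fun x => a ^ 8 * |ψ i (a⁻¹ • (x - p)) - u (a⁻¹ • (x - p))| := by
          funext x
          rw [hT, ← mul_sub, abs_mul, abs_of_pos (pow_pos ha 8)]
        rw [e8, h3, integral_const_mul, ← mul_assoc, ← pow_add]
      rw [e7]
      simpa using (hψL _ hTL hTLΩ).const_mul (a ^ 30)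
  · intro θ h1 h2 h3
    have hθ1 : ContDiff ℝ ∞ (fun z => θ (S z)) := h1.comp hSd
    have hθ3 : tsupport (fun z => θ (S z)) ⊆ Ω := by
      rw [hts' θ]
      intro z hz
      have := h3 hz
      rw [mem_preimage, hTS] at this
      exact this
    have h4 := h.weak _ hθ1 (hcs' θ h2) hθ3
    have e8 : (fun z => θ (S z)) = fun z => θ (a⁻¹⁻¹ • (z - (-(a⁻¹ • p)))) := by
      funext z; rw [hSform]
    have h5 : lap4 (fun z => θ (S z)) = fun z => a ^ 8 * lap4 θ (S z) := by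
      rw [e8, lap4_scale' h1 (inv_pos.2 ha)]
      funext z
      rw [hSform z, inv_inv]
    rw [h5] at h4
    have h6 := covOn (fun z => u z * (a ^ 8 * lap4 θ (S z))) ha p h.isOpen.measurableSet
    have h7 := covOn (fun z => f z * θ (S z)) ha p h.isOpen.measurableSet
    rw [← h4] at h7
    rw [← h7, ← hT] at h6
    have e9 : ∀ x, a⁻¹ • (x - p) = T x := by intro x; rw [hT]
    simp only [e9, hST] at h6
    rw [← h6]
    apply integral_congr_ae
    apply Eventually.of_forall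
    intro x
    simp only
    ring
  · obtain ⟨x₀, hx₀, hlt⟩ := h.pt
    refine ⟨S x₀, by rw [mem_preimage, hTS]; exact hx₀, ?_⟩
    rw [hTS]
    have h8 := cov (fun z => a⁻¹ ^ 14 * (((‖x₀ - z‖ ^ 2) ^ 7)⁻¹ * |f z|)) ha p
    have e9 : ∀ x, a⁻¹ • (x - p) = T x := by intro x; rw [hT]
    simp only [e9] at h8
    have e10 : (fun y => ((‖S x₀ - y‖ ^ 2) ^ 7)⁻¹ * |f (T y)|) =
        fun y => a⁻¹ ^ 14 * (((‖x₀ - T y‖ ^ 2) ^ 7)⁻¹ * |f (T y)|) := by
      funext y
      have h9 : S x₀ - y = a • (x₀ - T y) := by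
        conv_lhs => rw [← hST y]
        rw [hS]
        simp only [smul_sub]
        abel
      rw [h9, norm_smul, Real.norm_of_nonneg ha.le, mul_pow, mul_pow, mul_inv]
      rw [← pow_mul, inv_pow]
      norm_num
      ring
    rw [e10, h8, integral_const_mul, abs_mul, abs_of_pos (pow_pos ha 8)]
    have e11 : C * (a ^ 22 * (a⁻¹ ^ 14 * ∫ z, ((‖x₀ - z‖ ^ 2) ^ 7)⁻¹ * |f z|)) =
        a ^ 8 * (C * ∫ z, ((‖x₀ - z‖ ^ 2) ^ 7)⁻¹ * |f z|) := by
      have : a ^ 22 * a⁻¹ ^ 14 = a ^ 8 := by field_simp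
      calc _ = (a ^ 22 * a⁻¹ ^ 14) * (C * ∫ z, ((‖x₀ - z‖ ^ 2) ^ 7)⁻¹ * |f z|) := by ring
        _ = _ := by rw [this]
    rw [e11]
    exact mul_lt_mul_of_pos_left hlt (pow_pos ha 8)

end Pool.Agent.Y490.GO
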